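import Pool.Agent.H688R2.Cnt.Upper2

/-!
# The whole refutation
-/

namespace H688R2.Cnt

open Equiv H688R2.Gap Finset Classical

variable {α : Type} {n j m : ℕ} [Fintype α] {s : ℕ}

/-- from the truth of `z P H₀` -/
theorem M_true {Γ : Finset (G α n j × Bool)} {P : PS α j} {H : PS (Fin n) j}
    (hw : Γ.card ≤ j) (h : Der m s (insert (G.z P H, true) Γ)) :
    Der m s (insert (G.M P H true, true) Γ) := by
  apply Der.infer' _ {G.M P H true} ∅ {insert (G.z P H, true) Γ}
    ((card_insert_le _ _).trans (by omega)) (by simp) (by simpa using h)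
  intro S v hv hD hX hP hL
  obtain ⟨h1, h2⟩ := not_sat_insert hL
  obtain ⟨l, hl, hlv⟩ := hP _ (mem_singleton_self _)
  rcases mem_insert.1 hl with rfl | hl
  · have h3 := resp_M (hD _ (mem_singleton_self _))
    simp only [iff_true] at hlv
    rw [if_pos hlv] at h3
    simp only [resM, if_true, iff_true] at h3
    simp [h3] at h1
  · exact h2 ⟨l, hl, hlv⟩

/-- from the falsity of one `r a H` -/
theorem M_false {Γ : Finset (G α n j × Bool)} {P : PS α j} {H : PS (Fin n) j} {a : α}
    (ha : a ∈ P.1) (hw : Γ.card ≤ j) (h : Der m s (insert (G.r a H, false) Γ)) :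
    Der m s (insert (G.M P H false, true) Γ) := by
  apply Der.infer' _ {G.z P H, G.M P H false} ∅ {insert (G.r a H, false) Γ}
    ((card_insert_le _ _).trans (by omega)) (by
      have := card_le_two (a := G.z P H) (b := G.M P H false)
      simp only [card_empty, card_singleton]
      omega) (by simpa using h)
  intro S v hv hD hX hP hL
  obtain ⟨h1, h2⟩ := not_sat_insert hL
  obtain ⟨l, hl, hlv⟩ := hP _ (mem_singleton_self _)
  rcases mem_insert.1 hl with rfl | hl
  · have h3 := resp_M (hD (G.M P H false) (by simp))
    have h4 := resp_z (hD (G.z P H) (by simp))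
    have h5 : ¬ v (G.r a H) := by simpa using hlv
    have h6 : ¬ v (G.z P H) := fun h => h5 (h4.1 h a ha)
    rw [if_neg h6] at h3
    simp only [resM, Bool.false_eq_true, if_false, iff_true] at h3
    simp [h3] at h1
  · exact h2 ⟨l, hl, hlv⟩

/-- from the truth of all `r a H` -/
theorem z_true {Γ : Finset (G α n j × Bool)} {P : PS α j} {H : PS (Fin n) j}
    (hw : Γ.card ≤ j) (h : ∀ a ∈ P.1, Der m s (insert (G.r a H, true) Γ)) :
    Der m s (insert (G.z P H, true) Γ) := by
  apply MDag.Derives.wide Γ (G.z P H) true true ((card_insert_le _ _).trans (by omega)) rfl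
  · intro q' hq'
    change G.chld (G.z P H) q' at hq'
    cases q' <;> simp only [G.chld] at hq'
    obtain ⟨h1, rfl⟩ := hq'
    exact h _ h1
  · show (¬ (true = false ∧ _)) ↔ _
    simp

theorem r_true {Γ : Finset (G α n j × Bool)} {a : α} {H : PS (Fin n) j} {i : Fin n}
    (hi : i ∈ H.1) (hw : Γ.card ≤ j) (hΓ : (G.x a i, false) ∈ Γ) :
    Der m s (insert (G.r a H, true) Γ) := by
  apply Der.infer' _ {G.r a H} ∅ ∅ ((card_insert_le _ _).trans (by omega)) (by simp) (by simp)
  intro S v hv hD hX hP hL
  obtain ⟨h1, h2⟩ := not_sat_insert hL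
  have h3 : v (G.x a i) := by
    by_contra h4
    exact h2 ⟨_, hΓ, by simpa using h4⟩
  have h5 := (resp_r (hD _ (mem_singleton_self _))).2 ⟨i, hi, h3⟩
  simp [h5] at h1

/-- the lines `E P` in the context of a placement of the pigeons in `P` -/
theorem E_base (hs : (Fintype.card α).choose j ≤ s) (P : PS α j) (φ : α → Fin n) :
    Der m s (insert (G.E P, true) (ctx P.1 φ)) := by
  have hΓ : (ctx P.1 φ : Finset (G α n j × Bool)).card ≤ j := (card_ctx _ _).trans P.2.le
  have hmem : ∀ a ∈ P.1, ((G.x a (φ a), false) : G α n j × Bool) ∈ ctx P.1 φ :=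
    fun a ha => mem_image.2 ⟨a, ha, rfl⟩
  by_cases hinj : Set.InjOn φ P.1
  · let H₀ : PS (Fin n) j := ⟨P.1.image φ, by rw [card_image_of_injOn hinj]; exact P.2⟩
    apply E_of_M hs _ P H₀ ((card_insert_le _ _).trans (by omega))
    intro H
    by_cases hH : H = H₀
    · subst hH
      have h1 : decide (H₀ = H₀) = true := by simp
      rw [h1]
      apply M_true hΓ
      apply z_true hΓ
      intro a ha
      exact r_true (mem_image_of_mem φ ha) hΓ (hmem a ha)
    · have h1 : decide (H = H₀) = false := by simpa using hH
      rw [h1]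
      have h2 : ∃ a ∈ P.1, φ a ∉ H.1 := by
        by_contra h3
        push Not at h3
        apply hH
        apply Subtype.ext
        have h4 : P.1.image φ ⊆ H.1 := image_subset_iff.2 h3
        exact (eq_of_subset_of_card_le h4 (by rw [H.2]; exact H₀.2.ge)).symm
      obtain ⟨a, ha, hn⟩ := h2
      apply M_false ha hΓ
      apply Der.infer' _ {G.r a H} {![.inl a, .inl a]} ∅ ((card_insert_le _ _).trans (by omega))
        (by simp) (by simp)
      intro S v hv hD hX hP hL
      obtain ⟨h5, h6⟩ := not_sat_insert hL
      obtain ⟨i, h7, h8, -⟩ := inst_x hv (hX _ (mem_singleton_self _))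
      have h9 : φ a = i := h8 _ (of_not_ctx h6 ha)
      have h10 : v (G.r a H) := by simpa using h5
      obtain ⟨i', h11, h12⟩ := (resp_r (hD _ (mem_singleton_self _))).1 h10
      rw [h9] at hn
      exact hn (by rw [← h8 i' h12]; exact h11)
  · unfold Set.InjOn at hinj
    push Not at hinj
    obtain ⟨a, ha, a', ha', h1, h2⟩ := hinj
    apply Der.infer' _ ∅ {![.inl a, .inl a']} ∅ ((card_insert_le _ _).trans (by omega))
      (by simp) (by simp)
    intro S v hv hD hX hP hL
    obtain ⟨h5, h6⟩ := not_sat_insert hL
    obtain ⟨i, h7, h8, h9⟩ := inst_x hv (hX _ (mem_singleton_self _))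
    have h10 : φ a = i := h8 _ (of_not_ctx h6 ha)
    have h11 := of_not_ctx h6 ha'
    rw [← h1, h10] at h11
    exact h9 h2 h11

theorem D_base (hs : (Fintype.card α).choose j ≤ s) (H : PS (Fin n) j) (ψ : Fin n → α) :
    Der m s (insert (G.D H, true) (ctx' H.1 ψ)) := by
  have hΓ : (ctx' H.1 ψ : Finset (G α n j × Bool)).card ≤ j := (card_ctx' _ _).trans H.2.le
  have hmem : ∀ i ∈ H.1, ((G.x (ψ i) i, false) : G α n j × Bool) ∈ ctx' H.1 ψ :=
    fun a ha => mem_image.2 ⟨a, ha, rfl⟩
  by_cases hinj : Set.InjOn ψ H.1
  · let P₀ : PS α j := ⟨H.1.image ψ, by rw [card_image_of_injOn hinj]; exact H.2⟩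
    apply D_of_M hs _ H P₀ ((card_insert_le _ _).trans (by omega))
    intro P
    by_cases hP : P = P₀
    · subst hP
      have h1 : decide (P₀ = P₀) = true := by simp
      rw [h1]
      apply M_true hΓ
      apply z_true hΓ
      intro a ha
      obtain ⟨i, hi, rfl⟩ := mem_image.1 ha
      exact r_true hi hΓ (hmem i hi)
    · have h1 : decide (P = P₀) = false := by simpa using hP
      rw [h1]
      have h2 : ∃ a ∈ P.1, a ∉ P₀.1 := by
        by_contra h3
        push Not at h3
        apply hP
        apply Subtype.ext
        exact eq_of_subset_of_card_le h3 (by rw [P.2]; exact P₀.2.le)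
      obtain ⟨a, ha, hn⟩ := h2
      apply M_false ha hΓ
      apply MDag.Derives.wide _ (G.r a H) false false ((card_insert_le _ _).trans (by omega)) rfl
      · intro q' hq'
        change G.chld (G.r a H) q' at hq'
        cases q' with
        | x a' i =>
          obtain ⟨rfl, hi⟩ := hq'
          apply Der.infer' _ ∅ {![.inl (ψ i), .inl a']} ∅ ((card_insert_le _ _).trans (by omega))
            (by simp) (by simp)
          intro S v hv hD hX hP hL
          obtain ⟨h5, h6⟩ := not_sat_insert hL
          obtain ⟨i', h7, h8, h9⟩ := inst_x hv (hX _ (mem_singleton_self _))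
          have h10 : i = i' := h8 _ (of_not_ctx' h6 hi)
          subst h10
          apply h9 _ (by simpa using h5)
          rintro rfl
          exact hn (mem_image_of_mem ψ hi)
        | _ => exact absurd hq' (by simp [G.chld])
      · show (false = true ∧ _) ↔ _
        simp
  · unfold Set.InjOn at hinj
    push Not at hinj
    obtain ⟨i, hi, i', hi', h1, h2⟩ := hinj
    apply Der.infer' _ ∅ {![.inl (ψ i), .inl (ψ i)]} ∅ ((card_insert_le _ _).trans (by omega))
      (by simp) (by simp)
    intro S v hv hD hX hP hL
    obtain ⟨h5, h6⟩ := not_sat_insert hL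
    obtain ⟨i'', h7, h8, -⟩ := inst_x hv (hX _ (mem_singleton_self _))
    have h10 : i = i'' := h8 _ (of_not_ctx' h6 hi)
    have h11 := of_not_ctx' h6 hi'
    rw [← h1] at h11
    have h12 : i' = i'' := h8 _ h11
    exact h2 (h10.trans h12.symm)

theorem E_all (hs : (Fintype.card α).choose j ≤ s) (P : PS α j) :
    ∀ k, ∀ U ⊆ P.1, U.card + k = j → ∀ φ : α → Fin n,
      Der m s (insert (G.E P, true) (ctx U φ)) := by
  intro k
  induction k with
  | zero =>
    intro U hU hc φ
    have : U = P.1 := eq_of_subset_of_card_le hU (by rw [P.2]; omega)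
    rw [this]
    exact E_base hs P φ
  | succ k ih =>
    intro U hU hc φ
    have h1 : U.card < P.1.card := by rw [P.2]; omega
    obtain ⟨a, ha, haU⟩ := exists_mem_notMem_of_card_lt_card h1
    have hctx : ∀ i : Fin n, (ctx (insert a U) (Function.update φ a i) : Finset (G α n j × Bool)) =
        insert (G.x a i, false) (ctx U φ) := by
      intro i
      unfold ctx
      rw [image_insert, Function.update_self]
      congr 1
      apply image_congr
      intro b hb
      have : b ≠ a := by rintro rfl; exact haU hb
      simp only [Function.update_of_ne this]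
    have hcU := card_ctx (n := n) (j := j) U φ
    have hci := card_insert_le (G.E P, true) (ctx U φ : Finset (G α n j × Bool))
    apply Der.elim (q := G.row a) rfl (fun _ _ _ => Iff.rfl) (row_true a) (by omega)
    intro q' hq'
    cases q' with
    | x a' i =>
      change a' = a at hq'
      subst hq'
      rw [Finset.insert_comm, ← hctx]
      exact ih (insert a' U) (insert_subset ha hU) (by rw [card_insert_of_notMem haU]; omega) _
    | _ => exact absurd hq' (by simp [G.chld])

theorem D_all (hs : (Fintype.card α).choose j ≤ s) (H : PS (Fin n) j) :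
    ∀ k, ∀ U ⊆ H.1, U.card + k = j → ∀ ψ : Fin n → α,
      Der m s (insert (G.D H, true) (ctx' U ψ)) := by
  intro k
  induction k with
  | zero =>
    intro U hU hc φ
    have : U = H.1 := eq_of_subset_of_card_le hU (by rw [H.2]; omega)
    rw [this]
    exact D_base hs H φ
  | succ k ih =>
    intro U hU hc ψ
    have h1 : U.card < H.1.card := by rw [H.2]; omega
    obtain ⟨i, hi, hiU⟩ := exists_mem_notMem_of_card_lt_card h1
    have hctx : ∀ a : α, (ctx' (insert i U) (Function.update ψ i a) : Finset (G α n j × Bool)) =
        insert (G.x a i, false) (ctx' U ψ) := by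
      intro a
      unfold ctx'
      rw [image_insert, Function.update_self]
      congr 1
      apply image_congr
      intro b hb
      have : b ≠ i := by rintro rfl; exact hiU hb
      simp only [Function.update_of_ne this]
    have hcU := card_ctx' (j := j) U ψ
    have hci := card_insert_le (G.D H, true) (ctx' U ψ : Finset (G α n j × Bool))
    apply Der.elim (q := G.col i) rfl (fun _ _ _ => Iff.rfl) (col_true (ψ i) i) (by omega)
    intro q' hq'
    cases q' with
    | x a i' =>
      change i' = i at hq'
      subst hq'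
      rw [Finset.insert_comm, ← hctx]
      exact ih (insert i' U) (insert_subset hi hU) (by rw [card_insert_of_notMem hiU]; omega) _
    | _ => exact absurd hq' (by simp [G.chld])

/-- **The refutation.** -/
theorem refutes [Nonempty α] (hs : (Fintype.card α).choose j ≤ s) (hs1 : 1 ≤ s)
    (hne : ((Fintype.card α).choose j : ZMod m) ≠ (n.choose j : ZMod m)) (hn : 0 < n) :
    (dag m α n j).Refutes (ontoFphp n) (j + 1) 4 s := by
  have : Nonempty (Fin n) := ⟨⟨0, hn⟩⟩
  have hE : ∀ P, Der m s {((G.E P : G α n j), true)} := by
    intro P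
    have := E_all (m := m) hs P j ∅ (empty_subset _) (by simp)
      (fun _ => (Classical.arbitrary (Fin n)))
    simpa [ctx] using this
  have hD : ∀ H, Der m s {((G.D H : G α n j), true)} := by
    intro H
    have := D_all (m := m) hs H j ∅ (empty_subset _) (by simp)
      (fun _ => (Classical.arbitrary α))
    simpa [ctx'] using this
  have hT1 := T_of_E hs1 hE
  have hT2 := T_of_D hs1 hD
  show Der m s ∅
  apply Der.infer' ∅ {G.T true, G.T false} ∅ {{(G.T true, true)}, {(G.T false, true)}} (by simp)
    (by
      have h1 := card_le_two (a := (G.T true : G α n j)) (b := G.T false)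
      have h2 := card_le_two (a := ({((G.T true : G α n j), true)} : Finset (G α n j × Bool)))
        (b := {(G.T false, true)})
      simp only [card_empty]
      omega)
    (by
      intro L' hL'
      simp only [mem_insert, mem_singleton] at hL'
      rcases hL' with rfl | rfl
      · exact hT1
      · exact hT2)
  intro S v hv hDD hX hP hL
  have h1 : v (G.T true) := by
    obtain ⟨l, hl, hlv⟩ := hP {(G.T true, true)} (by simp)
    rw [mem_singleton] at hl
    subst hl
    simpa using hlv
  have h2 : v (G.T false) := by
    obtain ⟨l, hl, hlv⟩ := hP {(G.T false, true)} (by simp)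
    rw [mem_singleton] at hl
    subst hl
    simpa using hlv
  have h3 := (resp_T (hDD (G.T true) (by simp))).1 h1
  have h4 := (resp_T (hDD (G.T false) (by simp))).1 h2
  rw [h3] at h4
  apply hne
  simpa [resT] using h4

end H688R2.Cnt
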