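import Pool.Agent.H688R2.Cnt.Lower
import Pool.Agent.H688R2.Cnt.Upper3

/-!
# Pigeonhole principles
-/

namespace H688R2.Cnt

open Equiv Finset H688R2.Sym H688R2.Gap

section arith

/-- congruent binomial coefficients -/
theorem dvd_choose_sub {m N n k : ℕ} (hnN : n ≤ N)
    (h : ∀ j, 1 ≤ j → j ≤ k → N.choose j ≡ n.choose j [MOD m]) :
    ∀ j, 1 ≤ j → j ≤ k → m ∣ (N - n).choose j := by
  obtain ⟨d, rfl⟩ := Nat.exists_eq_add_of_le hnN
  rw [Nat.add_sub_cancel_left]
  intro j
  induction j using Nat.strong_induction_on with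
  | _ j ih =>
    intro hj1 hjk
    have h1 := h j hj1 hjk
    rw [Nat.add_choose_eq] at h1
    have h0 : (j, 0) ∈ antidiagonal j := by simp
    have h0' : (0, j) ∈ (antidiagonal j).erase (j, 0) := by
      rw [mem_erase]
      refine ⟨?_, by simp⟩
      simp only [ne_eq, Prod.mk.injEq, not_and]
      omega
    rw [← Finset.add_sum_erase _ _ h0, ← Finset.add_sum_erase _ _ h0'] at h1
    simp only [Nat.choose_zero_right, mul_one, one_mul] at h1
    have h2 : m ∣ ∑ x ∈ ((antidiagonal j).erase (j, 0)).erase (0, j),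
        n.choose x.1 * d.choose x.2 := by
      apply Finset.dvd_sum
      rintro ⟨a, b⟩ hab
      rw [mem_erase, mem_erase, Finset.HasAntidiagonal.mem_antidiagonal] at hab
      simp only [ne_eq, Prod.mk.injEq, not_and] at hab
      obtain ⟨h3, h4, h5⟩ := hab
      have hb0 : b ≠ 0 := by
        rintro rfl
        exact h4 (by omega) rfl
      have hbj : b < j := by
        have : a ≠ 0 := by
          rintro rfl
          exact h3 rfl (by omega)
        omega
      exact Dvd.dvd.mul_left (ih b hbj (by omega) (by omega)) _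
    have h3 : n.choose j + (d.choose j + ∑ x ∈ ((antidiagonal j).erase (j, 0)).erase (0, j),
        n.choose x.1 * d.choose x.2) ≡ n.choose j + 0 [MOD m] := by simpa using h1
    have h4 := Nat.ModEq.add_left_cancel' _ h3
    rw [Nat.modEq_zero_iff_dvd] at h4
    exact (Nat.dvd_add_left h2).1 h4

theorem choose_mul_per (m k : ℕ) (hm : m ≠ 0) (t : ℕ) (j : ℕ) (hj1 : 1 ≤ j) (hj : j ≤ k) :
    m ∣ (t * per m k).choose j := by
  induction t with
  | zero =>
    rw [zero_mul, Nat.choose_eq_zero_of_lt (by omega)]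
    exact dvd_zero m
  | succ t ih =>
    have h1 := choose_add_per m k hm (t * per m k) j hj
    rw [show (t + 1) * per m k = t * per m k + per m k by ring]
    rw [← Nat.modEq_zero_iff_dvd] at ih ⊢
    exact h1.trans ih

/-- a number in a window of length the period -/
theorem exists_window {a b P : ℕ} (hP : 0 < P) (hab : b ≤ a) (hPb : P ≤ b) :
    ∃ t, t * P ≤ a ∧ a - t * P ≤ b ∧ b < a - t * P + P := by
  refine ⟨(a - b + P - 1) / P, ?_, ?_, ?_⟩
  · have := Nat.div_mul_le_self (a - b + P - 1) P
    omega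
  · have h1 := Nat.div_add_mod (a - b + P - 1) P
    have h2 := Nat.mod_lt (a - b + P - 1) hP
    rw [mul_comm] at h1
    omega
  · have := Nat.div_mul_le_self (a - b + P - 1) P
    omega

end arith

section lower

variable {α B Q : Type} {m : ℕ} [Fintype α] [Fintype B] [Fintype Q] [MulAction (Perm α) Q]

/-- onto functional pigeonhole principle -/
theorem onto_lower {n k w c s : ℕ} (hk : 1 ≤ k)
    (hn : n ≤ Fintype.card α + Fintype.card B)
    (hm : ∀ j, 1 ≤ j → j ≤ k →
      (Fintype.card α + Fintype.card B).choose j ≡ n.choose j [MOD m])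
    (hK : 16 * (k + 1) * (k + 1) * (Nat.log 2 (Fintype.card α) + 1) ≤ Fintype.card α)
    (hB : Fintype.card B + (c + 1) * (w + 1) * (k + 2) + 3 * k + 2 ≤ n)
    (F : MDag m (Atom (holes n) (α ⊕ B)) Q) (hF : F.Invariant)
    (hs : s ^ 2 ≤ Fintype.card α ^ k)
    (hQ : ∀ q : Q, Nat.card (MulAction.orbit (Perm α) q) ≤ s) :
    ¬ F.Refutes (ontoFphp n) w c s := by
  classical
  let b := n - Fintype.card B
  have e : (Fin b ⊕ B) ≃ Fin n := Fintype.equivOfCardEq (by
    rw [Fintype.card_sum, Fintype.card_fin, Fintype.card_fin]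
    omega)
  apply not_refutes (ontoFphp n) (β := Fin b) _ (ontoFphp_models e) F hF hk hs hQ hK
  · rw [Fintype.card_fin]; omega
  · intro j h1 h2
    have := dvd_choose_sub hn hm j h1 h2
    rw [Fintype.card_fin]
    have e1 : Fintype.card α - b = Fintype.card α + Fintype.card B - n := by omega
    rw [e1]
    exact this
  · rw [Fintype.card_fin]
    show (c + 1) * (w + 1) * (k + 2) + 3 * k + 2 ≤ b
    omega

/-- functional pigeonhole principle -/
theorem fphp_lower {n k w c s : ℕ} (hm : m ≠ 0) (hk : 1 ≤ k)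
    (hn : n ≤ Fintype.card α + Fintype.card B)
    (hK : 16 * (k + 1) * (k + 1) * (Nat.log 2 (Fintype.card α) + 1) ≤ Fintype.card α)
    (hB : Fintype.card B + m * k ^ m.primeFactors.card + (c + 1) * (w + 1) * (k + 2) + 3 * k + 2
      ≤ n)
    (F : MDag m (Atom (holes n) (α ⊕ B)) Q) (hF : F.Invariant)
    (hs : s ^ 2 ≤ Fintype.card α ^ k)
    (hQ : ∀ q : Q, Nat.card (MulAction.orbit (Perm α) q) ≤ s) :
    ¬ F.Refutes (fphp n) w c s := by
  classical
  have hP := per_le m k hk
  obtain ⟨t, h1, h2, h3⟩ := exists_window (a := Fintype.card α) (b := n - Fintype.card B)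
    (P := per m k) (per_pos m k hm) (by omega) (by omega)
  let b := Fintype.card α - t * per m k
  have e : Nonempty ((Fin b ⊕ B) ↪ Fin n) := by
    rw [Function.Embedding.nonempty_iff_card_le, Fintype.card_sum, Fintype.card_fin,
      Fintype.card_fin]
    omega
  apply not_refutes (fphp n) (β := Fin b) _ (fphp_models e.some) F hF hk hs hQ hK
  · rw [Fintype.card_fin]; omega
  · intro j hj1 hj2
    rw [Fintype.card_fin]
    have e1 : Fintype.card α - b = t * per m k := by omega
    rw [e1]
    exact choose_mul_per m k hm t j hj1 hj2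
  · rw [Fintype.card_fin]
    show (c + 1) * (w + 1) * (k + 2) + 3 * k + 2 ≤ b
    omega

end lower

section upper

variable {α : Type} {n j m : ℕ} [Fintype α]

theorem card_G : Fintype.card (G α n j) = Fintype.card α * n + Fintype.card α + n +
    Fintype.card α * n.choose j + 3 * ((Fintype.card α).choose j * n.choose j) +
    (Fintype.card α).choose j + n.choose j + 2 := by
  classical
  rw [← Fintype.card_congr (proxy_equiv% (G α n j))]
  simp only [Fintype.card_sum, Fintype.card_sigma, Fintype.card_finset_len, Fintype.card_fin,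
    Finset.sum_const, Finset.card_univ, smul_eq_mul, Fintype.card_bool, Fintype.card_prod]
  ring

theorem card_orbit_le {τ : Type} [Fintype τ] (q : G α n j) (f : τ → G α n j)
    (h : ∀ g : Perm α, ∃ t, g • q = f t) :
    Nat.card (MulAction.orbit (Perm α) q) ≤ Fintype.card τ := by
  classical
  have h' : ∀ x : MulAction.orbit (Perm α) q, ∃ t, x.1 = f t := by
    rintro ⟨x, g, rfl⟩
    exact h g
  choose t ht using h'
  rw [← Nat.card_eq_fintype_card]
  apply Nat.card_le_card_of_injective t
  intro x y hxy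
  apply Subtype.ext
  rw [ht x, ht y, hxy]

theorem orbit_G (hj : 1 ≤ j) (hα : 0 < Fintype.card α) (q : G α n j) :
    Nat.card (MulAction.orbit (Perm α) q) ≤ Fintype.card α ^ j := by
  have h1 : Fintype.card α ≤ Fintype.card α ^ j := Nat.le_self_pow (by omega) _
  have h2 : (Fintype.card α).choose j ≤ Fintype.card α ^ j := Nat.choose_le_pow _ _
  have h3 : 1 ≤ Fintype.card α ^ j := Nat.one_le_pow _ _ hα
  have h4 : Fintype.card (PS α j) ≤ Fintype.card α ^ j := by
    rw [Fintype.card_finset_len]; exact h2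
  cases q with
  | x a h => exact (card_orbit_le _ (fun a => G.x a h) fun g => ⟨g a, rfl⟩).trans h1
  | row a => exact (card_orbit_le _ (fun a => G.row a) fun g => ⟨g a, rfl⟩).trans h1
  | col h => exact (card_orbit_le _ (fun _ : Unit => G.col h) fun g => ⟨(), rfl⟩).trans h3
  | r a H => exact (card_orbit_le _ (fun a => G.r a H) fun g => ⟨g a, rfl⟩).trans h1
  | z P H => exact (card_orbit_le _ (fun P => G.z P H) fun g => ⟨mvP g P, rfl⟩).trans h4
  | M P H b => exact (card_orbit_le _ (fun P => G.M P H b) fun g => ⟨mvP g P, rfl⟩).trans h4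
  | E P => exact (card_orbit_le _ (fun P => G.E P) fun g => ⟨mvP g P, rfl⟩).trans h4
  | D H => exact (card_orbit_le _ (fun _ : Unit => G.D H) fun g => ⟨(), rfl⟩).trans h3
  | T b => exact (card_orbit_le _ (fun _ : Unit => G.T b) fun g => ⟨(), rfl⟩).trans h3

theorem card_G_le (hj : 1 ≤ j) :
    Fintype.card (G α n j) ≤ 12 * ((Fintype.card α + 1) * (n + 1)) ^ j := by
  rw [card_G]
  set N := Fintype.card α
  have h0 : N * n + N + n + 1 = (N + 1) * (n + 1) := by ring
  have h1 : (N + 1) * (n + 1) ≤ ((N + 1) * (n + 1)) ^ j := Nat.le_self_pow (by omega) _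
  have h2 : N.choose j ≤ (N + 1) ^ j :=
    (Nat.choose_le_pow N j).trans (Nat.pow_le_pow_left (by omega) _)
  have h3 : n.choose j ≤ (n + 1) ^ j :=
    (Nat.choose_le_pow n j).trans (Nat.pow_le_pow_left (by omega) _)
  have h4 : N.choose j * n.choose j ≤ ((N + 1) * (n + 1)) ^ j := by
    rw [mul_pow]; exact Nat.mul_le_mul h2 h3
  have h5 : N * n.choose j ≤ ((N + 1) * (n + 1)) ^ j := by
    rw [mul_pow]
    exact Nat.mul_le_mul ((Nat.le_succ N).trans (Nat.le_self_pow (by omega) _)) h3
  have h6 : N.choose j ≤ ((N + 1) * (n + 1)) ^ j := by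
    rw [mul_pow]
    exact h2.trans (Nat.le_mul_of_pos_right _ (by positivity))
  have h7 : n.choose j ≤ ((N + 1) * (n + 1)) ^ j := by
    rw [mul_pow]
    exact h3.trans (Nat.le_mul_of_pos_left _ (by positivity))
  have h8 : 1 ≤ ((N + 1) * (n + 1)) ^ j := Nat.one_le_pow _ _ (by positivity)
  omega

/-- counting `j`-subsets refutes the onto functional pigeonhole principle -/
theorem onto_upper (hj : 1 ≤ j) (hα : 0 < Fintype.card α) (hn : 0 < n)
    (hne : ¬ (Fintype.card α).choose j ≡ n.choose j [MOD m]) :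
    (dag m α n j).Invariant ∧
    Fintype.card (G α n j) ≤ 12 * ((Fintype.card α + 1) * (n + 1)) ^ j ∧
    (∀ q : G α n j, Nat.card (MulAction.orbit (Perm α) q) ≤ Fintype.card α ^ j) ∧
    (dag m α n j).Refutes (ontoFphp n) (j + 1) 4 (Fintype.card α ^ j) := by
  have : Nonempty α := Fintype.card_pos_iff.1 hα
  refine ⟨dag_invariant, card_G_le hj, orbit_G hj hα, ?_⟩
  apply refutes (Nat.choose_le_pow _ _) (Nat.one_le_pow _ _ hα) _ hn
  rw [Ne, ZMod.natCast_eq_natCast_iff]
  exact hne

end upper

end H688R2.Cnt
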