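import Pool.Agent.H688R2.Cnt.Lower

/-!
# The counting principle: partitions into blocks of size `q`
-/

namespace H688R2.Cnt

open Equiv Finset H688R2.Sym H688R2.Gap

/-- one relation symbol with `q` arguments: `B a` says that `a` enumerates a block -/
@[reducible] def blockSig (q : ℕ) : Sig where
  R := Unit
  ar := fun _ => q

/-- the atomic fact that `t` enumerates a block -/
def isBlock {q : ℕ} {A : Type} (t : Fin q → A) : Atom (blockSig q) A := ⟨(), t⟩

/-- The counting principle: the domain is partitioned into blocks of size `q`.  Tuples that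
enumerate blocks have distinct entries, two blocks that meet are equal, and every element is in
a block. -/
def counting (q : ℕ) (hq : 0 < q) : Sentence (blockSig q) where
  p := q + q
  q := q
  θ := fun e at' =>
    (at' (isBlock fun i => .inl (Fin.castAdd q i)) → ∀ i i',
      e (.inl (Fin.castAdd q i)) (.inl (Fin.castAdd q i')) → i = i') ∧
    (at' (isBlock fun i => .inl (Fin.castAdd q i)) → at' (isBlock fun i => .inl (Fin.natAdd q i)) →
      (∃ i i', e (.inl (Fin.castAdd q i)) (.inl (Fin.natAdd q i'))) →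
      ∀ i, ∃ i', e (.inl (Fin.castAdd q i)) (.inl (Fin.natAdd q i'))) ∧
    at' (isBlock fun i => .inr i) ∧ ∃ i, e (.inl (Fin.castAdd q ⟨0, hq⟩)) (.inr i)

theorem counting_inst {q : ℕ} (hq : 0 < q) {A : Type} (S : Atom (blockSig q) A → Prop)
    (u v : Fin q → A) : (counting q hq).Inst S (Fin.append u v) ↔
      (S (isBlock u) → Function.Injective u) ∧
      (S (isBlock u) → S (isBlock v) → (∃ i i', u i = v i') → ∀ i, ∃ i', u i = v i') ∧
      ∃ y : Fin q → A, S (isBlock y) ∧ ∃ i, u ⟨0, hq⟩ = y i := by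
  have key : (counting q hq).Inst S (Fin.append u v) ↔ ∃ y : Fin q → A,
      (S (isBlock fun i => Fin.append u v (Fin.castAdd q i)) → ∀ i i',
        Fin.append u v (Fin.castAdd q i) = Fin.append u v (Fin.castAdd q i') → i = i') ∧
      (S (isBlock fun i => Fin.append u v (Fin.castAdd q i)) →
        S (isBlock fun i => Fin.append u v (Fin.natAdd q i)) →
        (∃ i i', Fin.append u v (Fin.castAdd q i) = Fin.append u v (Fin.natAdd q i')) →
        ∀ i, ∃ i', Fin.append u v (Fin.castAdd q i) = Fin.append u v (Fin.natAdd q i')) ∧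
      S (isBlock y) ∧ ∃ i, Fin.append u v (Fin.castAdd q ⟨0, hq⟩) = y i := Iff.rfl
  rw [key]
  simp only [Fin.append_left, Fin.append_right]
  constructor
  · rintro ⟨y, h1, h2, h3, h4⟩
    exact ⟨fun h i i' hii => h1 h i i' hii, h2, y, h3, h4⟩
  · rintro ⟨h1, h2, y, h3, h4⟩
    exact ⟨y, fun h i i' hii => h1 h hii, h2, h3, h4⟩

theorem eq_append {q : ℕ} {A : Type} (x : Fin (q + q) → A) :
    x = Fin.append (fun i => x (Fin.castAdd q i)) (fun i => x (Fin.natAdd q i)) := by
  funext i
  refine Fin.addCases (fun i => ?_) (fun i => ?_) i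
  · rw [Fin.append_left]
  · rw [Fin.append_right]

/-- `b` blocks of size `q` -/
theorem counting_models {q : ℕ} (hq : 0 < q) {A : Type} {b : ℕ} (e : A ≃ Fin b × Fin q) :
    (counting q hq).Models (fun a : Atom (blockSig q) A => ∃ c, ∀ i, e (a.2 i) = (c, i)) := by
  intro (x : Fin (q + q) → A)
  rw [eq_append x, counting_inst]
  set u : Fin q → A := fun i => x (Fin.castAdd q i)
  set v : Fin q → A := fun i => x (Fin.natAdd q i)
  refine ⟨?_, ?_, ?_⟩
  · rintro ⟨c, hc⟩ i i' h
    have h1 : e (u i) = (c, i) := hc i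
    have h2 : e (u i') = (c, i') := hc i'
    rw [h, h2] at h1
    exact (congrArg Prod.snd h1).symm
  · rintro ⟨c, hc⟩ ⟨d, hd⟩ ⟨i, i', h⟩ k
    have h1 : e (u i) = (c, i) := hc i
    have h2 : e (v i') = (d, i') := hd i'
    have h' : u i = v i' := h
    rw [h', h2] at h1
    have hcd : d = c := congrArg Prod.fst h1
    refine ⟨k, e.injective ?_⟩
    have h3 : e (u k) = (c, k) := hc k
    have h4 : e (v k) = (d, k) := hd k
    rw [h3, h4, hcd]
  · refine ⟨fun i => e.symm ((e (u ⟨0, hq⟩)).1, i), ⟨(e (u ⟨0, hq⟩)).1, fun i => ?_⟩,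
      (e (u ⟨0, hq⟩)).2, ?_⟩
    · show e (e.symm _) = _
      rw [Equiv.apply_symm_apply]
    · show u ⟨0, hq⟩ = e.symm ((e (u ⟨0, hq⟩)).1, (e (u ⟨0, hq⟩)).2)
      rw [Prod.mk.eta, Equiv.symm_apply_apply]

/-- the size of a finite model is divisible by `q` -/
theorem dvd_of_models {q : ℕ} (hq : 0 < q) {A : Type} [Fintype A]
    (S : Atom (blockSig q) A → Prop) (hS : (counting q hq).Models S) : q ∣ Fintype.card A := by
  classical
  have hI : ∀ u v : Fin q → A, (counting q hq).Inst S (Fin.append u v) := fun u v => hS _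
  have h1 : ∀ u : Fin q → A, S (isBlock u) → Function.Injective u := fun u =>
    ((counting_inst hq S u u).1 (hI u u)).1
  have h2 : ∀ u v : Fin q → A, S (isBlock u) → S (isBlock v) → (∃ i i', u i = v i') →
      ∀ i, ∃ i', u i = v i' := fun u v => ((counting_inst hq S u v).1 (hI u v)).2.1
  have h3 : ∀ a : A, ∃ y : Fin q → A, S (isBlock y) ∧ ∃ i, a = y i := by
    intro a
    exact ((counting_inst hq S (fun _ => a) (fun _ => a)).1 (hI _ _)).2.2
  choose y hy hi using h3
  let f : A → Finset A := fun a => univ.image (y a)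
  have hf : ∀ a, a ∈ f a := by
    intro a
    obtain ⟨i, hi⟩ := hi a
    exact mem_image.2 ⟨i, mem_univ _, hi.symm⟩
  have hfeq : ∀ a a', a' ∈ f a → f a' = f a := by
    intro a a' h
    obtain ⟨i, _, h4⟩ := mem_image.1 h
    obtain ⟨i', h5⟩ := hi a'
    ext x
    constructor
    · intro hx
      obtain ⟨i'', _, h6⟩ := mem_image.1 hx
      obtain ⟨i3, h7⟩ := h2 _ _ (hy a') (hy a) ⟨i', i, by rw [← h5, h4]⟩ i''
      exact mem_image.2 ⟨i3, mem_univ _, by rw [← h7, h6]⟩
    · intro hx
      obtain ⟨i'', _, h6⟩ := mem_image.1 hx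
      obtain ⟨i3, h7⟩ := h2 _ _ (hy a) (hy a') ⟨i, i', by rw [← h5, h4]⟩ i''
      exact mem_image.2 ⟨i3, mem_univ _, by rw [← h7, h6]⟩
  have h4 := Finset.card_eq_sum_card_fiberwise (s := (univ : Finset A)) (t := univ.image f) (f := f)
    (fun a ha => mem_image_of_mem f ha)
  rw [card_univ] at h4
  have h5 : ∀ b ∈ univ.image f, (univ.filter fun a => f a = b).card = q := by
    intro b hb
    obtain ⟨a, _, rfl⟩ := mem_image.1 hb
    have : (univ.filter fun a' => f a' = f a) = f a := by
      ext a'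
      simp only [mem_filter, mem_univ, true_and]
      constructor
      · intro h; rw [← h]; exact hf a'
      · exact hfeq a a'
    rw [this, card_image_of_injective _ (h1 _ (hy a)), card_univ, Fintype.card_fin]
  rw [Finset.sum_congr rfl h5, sum_const, smul_eq_mul] at h4
  exact ⟨_, by rw [h4, mul_comm]⟩

end H688R2.Cnt
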