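import Pool.Agent.H688R2.Cnt.Apply
import Pool.Agent.H688R2.Cnt.Blocks

/-!
# The counting principle
-/

namespace H688R2.Cnt

open Equiv Finset H688R2.Sym H688R2.Gap

theorem coprime_per {q m k : ℕ} (hm : m ≠ 0) (h : Nat.Coprime q m) : Nat.Coprime q (per m k) := by
  unfold per
  apply Nat.Coprime.mul_right h
  apply Nat.Coprime.prod_right
  intro p hp
  apply Nat.Coprime.pow_right
  have := (Nat.mem_primeFactors.1 hp).2.1
  exact Nat.Coprime.coprime_dvd_right this h

theorem exists_mul_modEq {q P a : ℕ} (hq : 0 < q) (h : Nat.Coprime q P) :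
    ∃ t < q, t * P ≡ a [MOD q] := by
  rcases Nat.lt_or_ge 1 q with h1 | h1
  · obtain ⟨u, hu⟩ := Nat.exists_mul_mod_eq_one_of_coprime h.symm h1
    refine ⟨(u * a) % q, Nat.mod_lt _ hq, ?_⟩
    have h2 : (u * a) % q * P ≡ (u * a) * P [MOD q] := (Nat.mod_modEq _ _).mul_right _
    have h3 : (u * a) * P = (P * u) * a := by ring
    have h4 : P * u ≡ 1 [MOD q] := by
      unfold Nat.ModEq
      rw [hu.2, Nat.mod_eq_of_lt h1]
    rw [h3] at h2
    have h5 := h4.mul_right a
    rw [one_mul] at h5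
    exact h2.trans h5
  · have : q = 1 := by omega
    subst this
    exact ⟨0, by omega, Nat.modEq_one⟩

variable {α B Q : Type} {m : ℕ} [Fintype α] [Fintype B] [Fintype Q] [MulAction (Perm α) Q]

/-- counting principle -/
theorem counting_lower {q k w c s : ℕ} (hm : m ≠ 0) (hk : 1 ≤ k) (hq : 0 < q)
    (hqm : Nat.Coprime q m)
    (hK : 16 * (k + 1) * (k + 1) * (Nat.log 2 (Fintype.card α) + 1) ≤ Fintype.card α)
    (hB : q * (m * k ^ m.primeFactors.card) + (c + 1) * (w + 1) * (k + 2 * q) + 3 * k + 2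
      ≤ Fintype.card α)
    (F : MDag m (Atom (blockSig q) (α ⊕ B)) Q) (hF : F.Invariant)
    (hs : s ^ 2 ≤ Fintype.card α ^ k)
    (hQ : ∀ q : Q, Nat.card (MulAction.orbit (Perm α) q) ≤ s) :
    ¬ F.Refutes (counting q hq) w c s := by
  classical
  have hP := per_le m k hk
  obtain ⟨t, ht1, ht2⟩ := exists_mul_modEq (a := Fintype.card α + Fintype.card B) hq
    (coprime_per (k := k) hm hqm)
  have htP : t * per m k ≤ q * (m * k ^ m.primeFactors.card) :=
    Nat.mul_le_mul ht1.le hP
  let b := Fintype.card α - t * per m k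
  have hdvd : q ∣ b + Fintype.card B := by
    have h1 : b + Fintype.card B = Fintype.card α + Fintype.card B - t * per m k := by omega
    rw [h1]
    exact (Nat.modEq_iff_dvd' (by omega)).1 ht2
  obtain ⟨d, hd⟩ := hdvd
  have e : (Fin b ⊕ B) ≃ Fin d × Fin q := Fintype.equivOfCardEq (by
    rw [Fintype.card_sum, Fintype.card_prod, Fintype.card_fin, Fintype.card_fin, Fintype.card_fin,
      hd, mul_comm])
  apply not_refutes (counting q hq) (β := Fin b) _ (counting_models hq e) F hF hk hs hQ hK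
  · rw [Fintype.card_fin]; omega
  · intro j hj1 hj2
    rw [Fintype.card_fin]
    have e1 : Fintype.card α - b = t * per m k := by omega
    rw [e1]
    exact choose_mul_per m k hm t j hj1 hj2
  · rw [Fintype.card_fin]
    show (c + 1) * (w + 1) * (k + (q + q)) + 3 * k + 2 ≤ b
    rw [← two_mul]
    omega

end H688R2.Cnt
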