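import Pool.Agent.H688R2.Gap.Defs

/-!
# Symmetric propositional refutations with gates that count modulo `m`
-/

namespace H688R2.Cnt

open Equiv H688R2.Gap

/-- A finite set `Q` of formulas over the variables `I`, with shared subformulas (a circuit).
`child q q'` means that `q'` is an immediate subformula of `q`; there may be any number of them.
The formula `q` with `var q = some i` is the variable `i` (which occurs only once in `Q`).  Every
other `q` is `conn q s t z` where `s` says that some immediate subformula is true, `t` that some
immediate subformula is false and `z` is the number of the true immediate subformulas modulo `m`: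
for instance `¬ t` for a conjunction, `s` for a disjunction, `t` for a negation and `z = r` for a
gate `MOD_{m,r}`. -/
structure MDag (m : ℕ) (I Q : Type) where
  level : Q → ℕ
  var : Q → Option I
  child : Q → Q → Prop
  conn : Q → Prop → Prop → ZMod m → Prop
  child_lt : ∀ q q', child q q' → level q' < level q
  var_inj : ∀ q q' i, var q = some i → var q' = some i → q = q'

variable {m : ℕ} {I Q : Type}

/-- The truth values `v` respect the definition of the formula `q`. -/
def MDag.Respects (F : MDag m I Q) (v : Q → Prop) (q : Q) : Prop :=
  F.var q = none →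
    (v q ↔ F.conn q (∃ q', F.child q q' ∧ v q') (∃ q', F.child q q' ∧ ¬ v q')
      (Nat.card {q' // F.child q q' ∧ v q'} : ZMod m))

/-- The formula `q` says that the number of its true immediate subformulas is `r` modulo `m`. -/
def MDag.IsMod (F : MDag m I Q) (q : Q) (r : ZMod m) : Prop :=
  F.var q = none ∧ ∀ s t z, F.conn q s t z ↔ z = r

/-- The line `L` (a set of signed formulas, read as a disjunction) follows from the lines in `P`,
the definitions of the formulas in `D` and the instances of the sentence for the tuples in `X`, all
other formulas being treated as atoms. -/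
def MDag.Entails {σ : Sig} {A : Type} (F : MDag m (Atom σ A) Q) (Φ : Sentence σ) (D : Finset Q)
    (X : Finset (Fin Φ.p → A)) (P : Finset (Finset (Q × Bool))) (L : Finset (Q × Bool)) : Prop :=
  ∀ (S : Atom σ A → Prop) (v : Q → Prop),
    (∀ q a, F.var q = some a → (v q ↔ S a)) → (∀ q ∈ D, F.Respects v q) →
    (∀ x ∈ X, Φ.Inst S x) → (∀ L' ∈ P, SatLine v L') → SatLine v L

/-- The function `f` on a set on which the permutations of `α` act has at most `n` images under
these permutations. -/
def FewImages (α : Type) {T Z : Type} [MulAction (Perm α) T] (n : ℕ) (f : T → Z) : Prop :=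
  Nat.card {f' : T → Z // ∃ g : Perm α, ∀ x, f' (g • x) = f x} ≤ n

open Classical in
/-- The lines that can be derived from the statement that the sentence has a model with domain
`α ⊕ B`.  A line is a set of at most `w` signed formulas, read as a disjunction; `n` bounds the
number of images of the data of the wide rules.
* `infer`: a line may be inferred from derived lines with the help of definitions of formulas and
  instances of the sentence, at most `c` of them all together.
* `wide`: if all immediate subformulas of `q` have the same truth value, then the truth value of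
  `q` is known (for instance a conjunction follows from all its immediate subformulas).
* `linear`: a statement `MOD_{m,r}` may be inferred from any number of such statements, if it is a
  linear combination modulo `m` of them.
* `replace`: formulas with the same connective whose immediate subformulas are pairwise equivalent
  are equivalent. -/
inductive MDag.Derives {σ : Sig} {α B : Type} [Fintype Q] [MulAction (Perm α) Q]
    (F : MDag m (Atom σ (α ⊕ B)) Q) (Φ : Sentence σ) (w c n : ℕ) : Finset (Q × Bool) → Prop
  | infer (L : Finset (Q × Bool)) (D : Finset Q) (X : Finset (Fin Φ.p → α ⊕ B))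
      (P : Finset (Finset (Q × Bool))) (hw : L.card ≤ w) (hc : D.card + X.card + P.card ≤ c)
      (hP : ∀ L' ∈ P, F.Derives Φ w c n L') (h : F.Entails Φ D X P L) : F.Derives Φ w c n L
  | wide (Γ : Finset (Q × Bool)) (q : Q) (b b' : Bool) (hw : (insert (q, b) Γ).card ≤ w)
      (hq : F.var q = none)
      (hP : ∀ q', F.child q q' → F.Derives Φ w c n (insert (q', b') Γ))
      (h : F.conn q (b' = true ∧ ∃ q', F.child q q') (b' = false ∧ ∃ q', F.child q q')
        (if b' = true then (Nat.card {q' // F.child q q'} : ZMod m) else 0) ↔ b = true) :
      F.Derives Φ w c n (insert (q, b) Γ)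
  | linear (Γ : Finset (Q × Bool)) (q : Q) (r : ZMod m) (a ρ : Q → ZMod m)
      (hw : (insert (q, true) Γ).card ≤ w) (ha : FewImages α n a) (hq : F.IsMod q r)
      (hmod : ∀ q', a q' ≠ 0 → F.IsMod q' (ρ q'))
      (hP : ∀ q', a q' ≠ 0 → F.Derives Φ w c n (insert (q', true) Γ))
      (hchild : ∀ q'', (if F.child q q'' then (1 : ZMod m) else 0)
        = ∑ q', a q' * (if F.child q' q'' then (1 : ZMod m) else 0))
      (hr : r = ∑ q', a q' * ρ q') : F.Derives Φ w c n (insert (q, true) Γ)
  | replace (Γ : Finset (Q × Bool)) (q₁ q₂ : Q) (ρ : Q × Q → Prop)
      (hw : (insert (q₁, false) (insert (q₂, true) Γ)).card ≤ w) (hρ : FewImages α n ρ)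
      (h₁ : F.var q₁ = none) (h₂ : F.var q₂ = none) (hconn : F.conn q₁ = F.conn q₂)
      (hρc : ∀ a b, ρ (a, b) → F.child q₁ a ∧ F.child q₂ b)
      (hρ₁ : ∀ a, F.child q₁ a → ∃! b, ρ (a, b)) (hρ₂ : ∀ b, F.child q₂ b → ∃! a, ρ (a, b))
      (hP₁ : ∀ a b, ρ (a, b) → F.Derives Φ w c n (insert (a, false) (insert (b, true) Γ)))
      (hP₂ : ∀ a b, ρ (a, b) → F.Derives Φ w c n (insert (a, true) (insert (b, false) Γ))) :
      F.Derives Φ w c n (insert (q₁, false) (insert (q₂, true) Γ))

/-- The empty line is derived: this refutes the existence of a model with domain `α ⊕ B`. -/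
def MDag.Refutes {σ : Sig} {α B : Type} [Fintype Q] [MulAction (Perm α) Q]
    (F : MDag m (Atom σ (α ⊕ B)) Q) (Φ : Sentence σ) (w c n : ℕ) : Prop :=
  F.Derives Φ w c n ∅

/-- The permutations of `α` act on the formulas by renaming elements of the domain `α ⊕ B`, so that
the set of formulas is closed under these renamings. -/
structure MDag.Invariant {σ : Sig} {α B : Type} [MulAction (Perm α) Q]
    (F : MDag m (Atom σ (α ⊕ B)) Q) : Prop where
  var : ∀ (g : Perm α) q, F.var (g • q) = (F.var q).map (Atom.map (Sum.map g id))
  child : ∀ (g : Perm α) q q', F.child (g • q) (g • q') ↔ F.child q q'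
  conn : ∀ (g : Perm α) q, F.conn (g • q) = F.conn q

end H688R2.Cnt
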