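import Pool.Agent.H688R2.Cnt.World

/-!
# Truth values of all formulas from those in a smaller model
-/

namespace H688R2.Cnt

open Equiv Finset H688R2.Sym H688R2.Gap H534R2.SymSw

variable {σ : Sig} {α B Q : Type} {m : ℕ} [DecidableEq α] [Fintype α] [MulAction (Perm α) Q]

theorem card_eq_sum {T : Type} [Fintype T] (p : T → Prop) [DecidablePred p] :
    (Nat.card {q // p q} : ZMod m) = ∑ q, if p q then (1 : ZMod m) else 0 := by
  rw [Nat.card_eq_fintype_card, Fintype.card_subtype, Finset.sum_boole]

theorem smul_eq_of_isSup {Z : Finset α} {q : Q} (h : IsSup (sup q : Finset α) q)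
    (hZ : (sup q : Finset α) ⊆ Z) {g : Perm α} (hg : Perm.sign g = 1) (hg' : ∀ a ∈ Z, g a = a) :
    g • q = q :=
  h g hg fun a ha => hg' a (hZ ha)

theorem exists_ext [Fintype Q] (F : MDag m (Atom σ (α ⊕ B)) Q) (hF : F.Invariant) {k : ℕ}
    (hsup : ∀ q : Q, (sup q : Finset α).card ≤ k ∧ IsSup (sup q : Finset α) q)
    (y : Finset α) (S : Atom σ (α ⊕ B) → Prop) (Z : Finset α) (hZ : Z ⊆ y)
    (hc : Z.card + k + 2 ≤ y.card)
    (hm : ∀ j, 1 ≤ j → j ≤ k → m ∣ ((yᶜ : Finset α).card).choose j) :
    ∃ v : Q → Prop, (∀ q, (sup q : Finset α) ⊆ y → (v q ↔ V F y S q)) ∧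
      ∀ d, (sup d : Finset α) ⊆ Z → F.Respects v d := by
  classical
  have hyK : y.card ≤ Fintype.card α := card_le_univ y
  -- the place inside `y` of the part outside `y` of a support
  have hvv : ∀ (u : Finset α) (j : ℕ), ∃ W : Finset α, u.card + j ≤ k →
      W ⊆ y \ (Z ∪ u) ∧ W.card = j := by
    intro u j
    by_cases h : u.card + j ≤ k
    · have h1 : j ≤ (y \ (Z ∪ u)).card := by
        have h2 := le_card_sdiff (Z ∪ u) y
        have h3 := card_union_le Z u
        omega
      obtain ⟨W, hW⟩ := exists_subset_card_eq h1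
      exact ⟨W, fun _ => hW⟩
    · exact ⟨∅, fun h' => absurd h' h⟩
  choose vv hvv using hvv
  have hπ : ∀ s : Finset α, ∃ g : Perm α, s.card ≤ k → Perm.sign g = 1 ∧
      (∀ a ∈ Z ∪ (s ∩ y), g a = a) ∧ (vv (s ∩ y) (s \ y).card).map g.toEmbedding = s \ y ∧
      (s ⊆ y → g = 1) := by
    intro s
    by_cases hs : s.card ≤ k
    · have huj : (s ∩ y).card + (s \ y).card ≤ k := by
        have := card_sdiff_add_card_inter s y
        omega
      obtain ⟨hW1, hW2⟩ := hvv _ _ huj
      by_cases hsy : s ⊆ y
      · refine ⟨1, fun _ => ⟨by simp, fun _ _ => rfl, ?_, fun _ => rfl⟩⟩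
        have h0 : s \ y = ∅ := sdiff_eq_empty_iff_subset.2 hsy
        have h1 : vv (s ∩ y) (s \ y).card = ∅ := by
          rw [← card_eq_zero, hW2, h0, card_empty]
        rw [h1, map_empty, h0]
      · obtain ⟨g, g1, g2, g3⟩ := exists_even_map (Z ∪ (s ∩ y)) (vv (s ∩ y) (s \ y).card) (s \ y)
          (disjoint_left.2 fun a ha hb => (mem_sdiff.1 (hW1 hb)).2 ha)
          (disjoint_left.2 fun a ha hb => (mem_sdiff.1 hb).2
            ((union_subset hZ inter_subset_right) ha)) hW2 (by
            have := card_union_le Z (s ∩ y)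
            omega)
        exact ⟨g, fun _ => ⟨g1, g2, g3, fun h => absurd h hsy⟩⟩
    · exact ⟨1, fun h => absurd h hs⟩
  choose π hπ using hπ
  -- supports after moving back
  have hback : ∀ q : Q, (sup ((π (sup q))⁻¹ • q) : Finset α) =
      ((sup q : Finset α) ∩ y) ∪ vv ((sup q : Finset α) ∩ y) ((sup q : Finset α) \ y).card := by
    intro q
    obtain ⟨h1, h2, h3, h4⟩ := hπ (sup q) (hsup q).1
    have h5 := sup_smul_union (t := vv ((sup q : Finset α) ∩ y) ((sup q : Finset α) \ y).card) h2 h3
    apply map_injective (π (sup q)).toEmbedding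
    rw [← sup_smul, smul_inv_smul, h5, union_comm, sdiff_union_inter]
  have hin : ∀ q : Q, (sup ((π (sup q))⁻¹ • q) : Finset α) ⊆ y := by
    intro q
    rw [hback]
    have huj : ((sup q : Finset α) ∩ y).card + ((sup q : Finset α) \ y).card ≤ k := by
      have := card_sdiff_add_card_inter (sup q : Finset α) y
      have := (hsup q).1
      omega
    exact union_subset inter_subset_right ((hvv _ _ huj).1.trans sdiff_subset)
  let v : Q → Prop := fun q => V F y S ((π (sup q))⁻¹ • q)
  have hv : ∀ q, (sup q : Finset α) ⊆ y → (v q ↔ V F y S q) := by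
    intro q hq
    show V F y S ((π (sup q))⁻¹ • q) ↔ V F y S q
    rw [(hπ (sup q) (hsup q).1).2.2.2 hq, inv_one, one_smul]
  refine ⟨v, hv, ?_⟩
  intro d hd hvar
  have hdy : (sup d : Finset α) ⊆ y := hd.trans hZ
  rw [hv d hdy, V_conn F y S hvar]
  have hfix : ∀ q : Q, (π (sup q))⁻¹ • d = d := by
    intro q
    obtain ⟨h1, h2, h3, h4⟩ := hπ (sup q) (hsup q).1
    rw [inv_smul_eq_iff]
    exact (smul_eq_of_isSup (hsup d).2 hd h1 fun a ha => h2 a (mem_union_left _ ha)).symm
  have hchild : ∀ q : Q, F.child d ((π (sup q))⁻¹ • q) ↔ F.child d q := by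
    intro q
    have := hF.child (π (sup q))⁻¹ d q
    rwa [hfix q] at this
  have key : ∀ ε : Prop → Prop, (∃ q', F.child d q' ∧ ε (v q')) ↔
      (∃ q', F.child d q' ∧ (sup q' : Finset α) ⊆ y ∧ ε (V F y S q')) := by
    intro ε
    constructor
    · rintro ⟨q', h1, h2⟩
      exact ⟨_, (hchild q').2 h1, hin q', h2⟩
    · rintro ⟨q', h1, h2, h3⟩
      refine ⟨q', h1, ?_⟩
      rw [hv q' h2]
      exact h3
  have hcount : (Nat.card {q' // F.child d q' ∧ (sup q' : Finset α) ⊆ y ∧ V F y S q'} : ZMod m) =
      (Nat.card {q' // F.child d q' ∧ v q'} : ZMod m) := by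
    rw [card_eq_sum, card_eq_sum]
    let W : Q → ZMod m := fun q => if F.child d q ∧ v q then 1 else 0
    have hout : ∑ q with ¬ (sup q : Finset α) ⊆ y, W q = 0 := by
      apply vanish (fun q => (hsup q).1) y hm W
      have hone : ∀ u t : Finset α, u ⊆ y → Disjoint t y → u.card + t.card ≤ k →
          ∑ q with (sup q : Finset α) = u ∪ t, W q =
            ∑ q with (sup q : Finset α) = u ∪ vv u t.card,
              if F.child d q ∧ V F y S q then (1 : ZMod m) else 0 := by
        intro u t hu ht hut
        have h1 : (u ∪ t) ∩ y = u := by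
          rw [union_inter_distrib_right, disjoint_iff_inter_eq_empty.1 ht, union_empty]
          exact inter_eq_left.2 hu
        have h2 : (u ∪ t) \ y = t := by
          rw [union_sdiff_distrib, sdiff_eq_empty_iff_subset.2 hu, empty_union]
          exact sdiff_eq_self_of_disjoint ht
        apply Finset.sum_equiv (MulAction.toPerm (π (u ∪ t))⁻¹)
        · intro q
          simp only [mem_filter, mem_univ, true_and, MulAction.toPerm_apply]
          obtain ⟨e1, e2, e3, e4⟩ := hπ (u ∪ t) ((card_union_le u t).trans hut)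
          rw [h1] at e2
          rw [h1, h2] at e3
          have e5 := sup_smul_union e2 e3
          constructor
          · intro hq
            have := hback q
            rwa [hq, h1, h2] at this
          · intro hq
            have h6 : (sup ((π (u ∪ t)) • ((π (u ∪ t))⁻¹ • q)) : Finset α) = u ∪ t := by
              rw [sup_smul, hq, e5]
            rwa [smul_inv_smul] at h6
        · intro q hq
          rw [mem_filter] at hq
          rw [MulAction.toPerm_apply]
          show (if F.child d q ∧ v q then (1 : ZMod m) else 0) = _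
          have e6 := hchild q
          rw [hq.2] at e6
          have e7 : v q ↔ V F y S ((π (u ∪ t))⁻¹ • q) := by
            show V F y S ((π (sup q))⁻¹ • q) ↔ _
            rw [hq.2]
          rw [e6, e7]
      intro u t t' hu ht ht' htt huk
      rw [hone u t hu ht huk, hone u t' hu ht' (by rw [← htt]; exact huk), htt]
    have hsplit := Finset.sum_filter_add_sum_filter_not univ
      (fun q : Q => (sup q : Finset α) ⊆ y) W
    rw [hout, add_zero] at hsplit
    have : ∑ q, W q = ∑ q, if F.child d q ∧ v q then (1 : ZMod m) else 0 := rfl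
    rw [← this, ← hsplit, sum_filter]
    apply sum_congr rfl
    intro q _
    by_cases hq : (sup q : Finset α) ⊆ y
    · simp only [hq, true_and, if_true, W, hv q hq]
    · simp only [hq, false_and, and_false, if_false]
  have k1 := key id
  have k2 := key Not
  simp only [id] at k1
  rw [k1, k2, hcount]

end H688R2.Cnt
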