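import Pool.Agent.H688R2.Cnt.Wide

/-!
# The lower bound
-/

namespace H688R2.Cnt

open Equiv Finset H688R2.Sym H688R2.Gap H534R2.SymSw

variable {σ : Sig} {α B Q : Type} {m : ℕ} [DecidableEq α] [Fintype α]

/-- a model with domain `β ⊕ B` can be copied into a subset of `α` -/
theorem exists_relModel (Φ : Sentence σ) {β : Type} [Fintype β] [Nonempty β]
    (S₀ : Atom σ (β ⊕ B) → Prop) (hS₀ : Φ.Models S₀) (h : Fintype.card β ≤ Fintype.card α) :
    ∃ (y : Finset α) (S : Atom σ (α ⊕ B) → Prop), y.card = Fintype.card β ∧ RelModel Φ y S := by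
  classical
  obtain ⟨y, _, hy⟩ := exists_subset_card_eq (s := (univ : Finset α)) (n := Fintype.card β)
    (by rwa [card_univ])
  have e : β ≃ {a // a ∈ y} := Fintype.equivOfCardEq (by rw [Fintype.card_coe, hy])
  let h : α ⊕ B → β ⊕ B := Sum.map
    (fun a => if ha : a ∈ y then e.symm ⟨a, ha⟩ else Classical.arbitrary β) id
  let f : β ⊕ B → α ⊕ B := Sum.map (fun b => (e b).1) id
  have hf : ∀ z, h (f z) = z := by
    rintro (b | b)
    · simp only [h, f, Sum.map_inl]
      rw [dif_pos (e b).2]
      simp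
    · rfl
  have hfh : ∀ z, InY y z → f (h z) = z := by
    rintro (a | b) hz
    · have ha : a ∈ y := hz a rfl
      simp only [h, f, Sum.map_inl]
      rw [dif_pos ha]
      simp
    · rfl
  have hfin : ∀ z, InY y (f z) := by
    rintro (b | b) a ha
    · simp only [f, Sum.map_inl, Sum.inl.injEq] at ha
      rw [← ha]
      exact (e b).2
    · simp [f] at ha
  refine ⟨y, fun a => S₀ (a.map h), hy, ?_⟩
  intro x hx
  obtain ⟨z, hz⟩ := hS₀ (fun i => h (x i))
  refine ⟨fun i => f (z i), fun i => hfin _, ?_⟩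
  have hel : ∀ i, Sum.elim x (fun i => f (z i)) i = f (Sum.elim (fun i => h (x i)) z i) := by
    rintro (i | i)
    · exact (hfh _ (hx i)).symm
    · rfl
  have hel' : ∀ i, h (Sum.elim x (fun i => f (z i)) i) = Sum.elim (fun i => h (x i)) z i := by
    intro i
    rw [hel, hf]
  have e1 : (fun i j => Sum.elim x (fun i => f (z i)) i = Sum.elim x (fun i => f (z i)) j) =
      (fun i j => Sum.elim (fun i => h (x i)) z i = Sum.elim (fun i => h (x i)) z j) := by
    funext i j
    apply propext
    constructor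
    · intro h'
      rw [← hel', h', hel']
    · intro h'
      rw [hel, h', ← hel]
  have e2 : (fun a : Atom σ (Fin Φ.p ⊕ Fin Φ.q) =>
      S₀ ((a.map (Sum.elim x (fun i => f (z i)))).map h)) =
      (fun a => S₀ (a.map (Sum.elim (fun i => h (x i)) z))) := by
    funext a
    congr 1
    unfold Atom.map
    simp only
    congr 1
    funext i
    exact hel' _
  rw [e1, e2]
  exact hz

/-- **Lower bound.**  If the sentence has a model with domain `β ⊕ B` and the difference of the
sizes of `α` and `β` looks like `0` modulo `m` to binomial coefficients up to `k`, then in every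
refutation for the domain `α ⊕ B` that is invariant under the permutations of `α` there is a
formula, or a wide inference, with many images. -/
theorem not_refutes [Fintype Q] [MulAction (Perm α) Q] (Φ : Sentence σ) {β : Type} [Fintype β]
    (S₀ : Atom σ (β ⊕ B) → Prop) (hS₀ : Φ.Models S₀) (F : MDag m (Atom σ (α ⊕ B)) Q)
    (hF : F.Invariant) {k w c n : ℕ} (hk : 1 ≤ k) (hn : n ^ 2 ≤ Fintype.card α ^ k)
    (hQ : ∀ q : Q, Nat.card (MulAction.orbit (Perm α) q) ≤ n)
    (hK : 16 * (k + 1) * (k + 1) * (Nat.log 2 (Fintype.card α) + 1) ≤ Fintype.card α)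
    (hβα : Fintype.card β ≤ Fintype.card α)
    (hm : ∀ j, 1 ≤ j → j ≤ k → m ∣ (Fintype.card α - Fintype.card β).choose j)
    (hβ : (c + 1) * (w + 1) * (k + Φ.p) + 3 * k + 2 ≤ Fintype.card β) :
    ¬ F.Refutes Φ w c n := by
  intro hR
  have : Nonempty β := Fintype.card_pos_iff.1 (by omega)
  obtain ⟨y, S, hy, hS⟩ := exists_relModel (α := α) Φ S₀ hS₀ hβα
  obtain ⟨l, hl, _⟩ := valid_of_derives F hF Φ hk hn hK
    (fun q => small_sup_orbit hk q ((Nat.pow_le_pow_left (hQ q) 2).trans hn) hK) hm hβ hR y S hy hS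
    (fun l hl => absurd hl (notMem_empty l))
  exact absurd hl (notMem_empty l)

end H688R2.Cnt
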