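import Pool.Agent.H688R2.Cnt.Ext
import Pool.Agent.H688R2.Gap.Main

/-!
# All derived lines are true in the smaller models
-/

namespace H688R2.Cnt

open Equiv Finset H688R2.Sym H688R2.Gap H534R2.SymSw

section few

variable {α : Type} [DecidableEq α] [Fintype α]

theorem few_support {T Z : Type} [MulAction (Perm α) T] {k n : ℕ} (hk : 1 ≤ k)
    (hn : n ^ 2 ≤ Fintype.card α ^ k)
    (hK : 16 * (k + 1) * (k + 1) * (Nat.log 2 (Fintype.card α) + 1) ≤ Fintype.card α)
    (f : T → Z) (hf : FewImages α n f) :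
    ∃ s : Finset α, s.card ≤ k ∧ ∀ g : Perm α, Perm.sign g = 1 → (∀ a ∈ s, g a = a) →
      ∀ x, f (g • x) = f x := by
  letI : MulAction (Perm α) (T → Z) := arrowAction
  have horb : Nat.card (MulAction.orbit (Perm α) f) ≤ n := by
    refine le_trans (le_of_eq ?_) hf
    apply Nat.card_congr
    apply Equiv.subtypeEquivRight
    intro f'
    constructor
    · rintro ⟨g, rfl⟩
      refine ⟨g, fun x => ?_⟩
      show f (g⁻¹ • g • x) = f x
      rw [inv_smul_smul]
    · rintro ⟨g, hg⟩
      refine ⟨g, ?_⟩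
      funext x
      show f (g⁻¹ • x) = f' x
      rw [← hg, smul_inv_smul]
  obtain ⟨h1, h2⟩ := small_sup_orbit hk f ((Nat.pow_le_pow_left horb 2).trans hn) hK
  refine ⟨sup f, h1, fun g hg hfix x => ?_⟩
  have h3 := congrFun (h2 g hg hfix) (g • x)
  have h4 : (g • f) (g • x) = f (g⁻¹ • g • x) := rfl
  rw [h4, inv_smul_smul] at h3
  exact h3.symm

end few

variable {σ : Sig} {α B Q : Type} {m : ℕ} [DecidableEq α] [Fintype α] [Fintype Q]
  [MulAction (Perm α) Q]

theorem sat_move (F : MDag m (Atom σ (α ⊕ B)) Q) (hF : F.Invariant) (y : Finset α)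
    (S : Atom σ (α ⊕ B) → Prop) (L : Finset (Q × Bool)) (g : Perm α)
    (hg : ∀ l ∈ L, g • l.1 = l.1) (h : SatLine (V F (y.map g.toEmbedding) (mv g S)) L) :
    SatLine (V F y S) L := by
  obtain ⟨l, hl, hv⟩ := h
  refine ⟨l, hl, ?_⟩
  rw [← hg l hl, V_smul F hF y S g _ _ rfl] at hv
  exact hv

theorem exists_world (F : MDag m (Atom σ (α ⊕ B)) Q) (hF : F.Invariant) (Φ : Sentence σ)
    (hsup : ∀ q : Q, IsSup (sup q : Finset α) q)
    (y : Finset α) (S : Atom σ (α ⊕ B) → Prop) (hS : RelModel Φ y S) (L : Finset (Q × Bool))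
    (hL : ∀ l ∈ L, (sup l.1 : Finset α) ⊆ y) (Z : Finset α)
    (hc : ((L.biUnion fun l => (sup l.1 : Finset α)) ∪ Z).card ≤ y.card)
    (hc' : ((L.biUnion fun l => (sup l.1 : Finset α)) ∪ Z).card + 2 ≤ Fintype.card α) :
    ∃ (y' : Finset α) (S' : Atom σ (α ⊕ B) → Prop), y'.card = y.card ∧ RelModel Φ y' S' ∧
      (L.biUnion fun l => (sup l.1 : Finset α)) ∪ Z ⊆ y' ∧
      (SatLine (V F y' S') L → SatLine (V F y S) L) := by
  obtain ⟨g, g1, g2, g3⟩ := exists_move y (L.biUnion fun l => (sup l.1 : Finset α))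
    ((L.biUnion fun l => (sup l.1 : Finset α)) ∪ Z) (biUnion_subset.2 hL) subset_union_left hc hc'
  refine ⟨y.map g.toEmbedding, mv g S, card_map _, relModel_mv Φ y S g hS, g3, ?_⟩
  apply sat_move F hF y S L g
  intro l hl
  exact hsup l.1 g g1 fun a ha => g2 a (mem_biUnion.2 ⟨l, hl, ha⟩)

theorem card_of_derives (F : MDag m (Atom σ (α ⊕ B)) Q) (Φ : Sentence σ) {w c n : ℕ}
    {L : Finset (Q × Bool)} (hL : F.Derives Φ w c n L) : L.card ≤ w := by
  cases hL <;> assumption

/-- the narrow rule -/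
theorem valid_infer (F : MDag m (Atom σ (α ⊕ B)) Q) (hF : F.Invariant) (Φ : Sentence σ)
    {k w c : ℕ}
    (hsup : ∀ q : Q, (sup q : Finset α).card ≤ k ∧ IsSup (sup q : Finset α) q)
    (hK : 2 * k + 3 ≤ Fintype.card α)
    {L : Finset (Q × Bool)} {D : Finset Q} {X : Finset (Fin Φ.p → α ⊕ B)}
    {P : Finset (Finset (Q × Bool))} (hw : L.card ≤ w) (hc : D.card + X.card + P.card ≤ c)
    (hPw : ∀ L' ∈ P, L'.card ≤ w) (h : F.Entails Φ D X P L) {y : Finset α}
    {S : Atom σ (α ⊕ B) → Prop} (hS : RelModel Φ y S)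
    (hm : ∀ j, 1 ≤ j → j ≤ k → m ∣ (Fintype.card α - y.card).choose j)
    (hy : (c + 1) * (w + 1) * (k + Φ.p) + k + 2 ≤ y.card)
    (hyL : ∀ l ∈ L, (sup l.1 : Finset α) ⊆ y)
    (ih : ∀ L' ∈ P, ∀ (y' : Finset α) (S' : Atom σ (α ⊕ B) → Prop), y'.card = y.card →
      RelModel Φ y' S' → (∀ l ∈ L', (sup l.1 : Finset α) ⊆ y') → SatLine (V F y' S') L') :
    SatLine (V F y S) L := by
  classical
  let ZX : Finset α := X.biUnion fun x => univ.biUnion fun i =>
    Sum.elim (fun a => ({a} : Finset α)) (fun _ => ∅) (x i)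
  let Z : Finset α := (P.biUnion fun L' => L'.biUnion fun l => sup l.1) ∪
    (D.biUnion fun d => sup d) ∪ ZX
  have hyK : y.card ≤ Fintype.card α := card_le_univ y
  have hZX : ZX.card ≤ X.card * Φ.p := by
    apply card_biUnion_le'
    intro x _
    calc _ ≤ (univ : Finset (Fin Φ.p)).card * 1 := by
          apply card_biUnion_le'
          intro i _
          rcases x i with a | b
          · simp
          · simp
      _ = Φ.p := by simp
  have hcard : ((L.biUnion fun l => (sup l.1 : Finset α)) ∪ Z).card ≤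
      (c + 1) * (w + 1) * (k + Φ.p) := by
    have h1 : (L.biUnion fun l => (sup l.1 : Finset α)).card ≤ L.card * k :=
      card_biUnion_le' _ _ _ fun l _ => (hsup l.1).1
    have h2 : (D.biUnion fun d => (sup d : Finset α)).card ≤ D.card * k :=
      card_biUnion_le' _ _ _ fun d _ => (hsup d).1
    have h3 : (P.biUnion fun L' => L'.biUnion fun l => (sup l.1 : Finset α)).card ≤
        P.card * (w * k) := by
      apply card_biUnion_le'
      intro L' hL'
      exact (card_biUnion_le' _ _ _ fun l _ => (hsup l.1).1).trans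
        (Nat.mul_le_mul_right _ (hPw L' hL'))
    have h4 := card_union_le (L.biUnion fun l => (sup l.1 : Finset α)) Z
    have h5 := card_union_le ((P.biUnion fun L' => L'.biUnion fun l => (sup l.1 : Finset α)) ∪
      (D.biUnion fun d => (sup d : Finset α))) ZX
    have h6 := card_union_le (P.biUnion fun L' => L'.biUnion fun l => (sup l.1 : Finset α))
      (D.biUnion fun d => (sup d : Finset α))
    have h7 : L.card * k ≤ w * k := Nat.mul_le_mul_right _ hw
    have h8 : ((L.biUnion fun l => (sup l.1 : Finset α)) ∪ Z).card ≤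
        w * k + (D.card * k + X.card * Φ.p + P.card * (w * k)) := by
      have : Z.card ≤ D.card * k + X.card * Φ.p + P.card * (w * k) := by
        show (((P.biUnion fun L' => L'.biUnion fun l => (sup l.1 : Finset α)) ∪
          (D.biUnion fun d => (sup d : Finset α))) ∪ ZX).card ≤ _
        omega
      omega
    refine h8.trans ?_
    have h9 : D.card * k + X.card * Φ.p + P.card * (w * k) ≤ c * ((w + 1) * (k + Φ.p)) := by
      calc D.card * k + X.card * Φ.p + P.card * (w * k)
          ≤ D.card * ((w + 1) * (k + Φ.p)) + X.card * ((w + 1) * (k + Φ.p)) +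
            P.card * ((w + 1) * (k + Φ.p)) := by
            apply Nat.add_le_add
            · apply Nat.add_le_add
              · exact Nat.mul_le_mul_left _ (by nlinarith)
              · exact Nat.mul_le_mul_left _ (by nlinarith)
            · exact Nat.mul_le_mul_left _ (by nlinarith)
        _ = (D.card + X.card + P.card) * ((w + 1) * (k + Φ.p)) := by ring
        _ ≤ _ := Nat.mul_le_mul_right _ hc
    have h10 : w * k ≤ (w + 1) * (k + Φ.p) := by nlinarith
    calc _ ≤ (w + 1) * (k + Φ.p) + c * ((w + 1) * (k + Φ.p)) := Nat.add_le_add h10 h9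
      _ = _ := by ring
  obtain ⟨y', S', e1, e2, e3, e4⟩ := exists_world F hF Φ (fun q => (hsup q).2) y S hS L hyL Z
    (by omega) (by omega)
  apply e4
  have hm' : ∀ j, 1 ≤ j → j ≤ k → m ∣ ((y'ᶜ : Finset α).card).choose j := by
    intro j h1 h2
    rw [card_compl, e1]
    exact hm j h1 h2
  obtain ⟨v, hv1, hv2⟩ := exists_ext F hF hsup y' S' _ e3 (by rw [e1]; omega) hm'
  have hin : ∀ d, (sup d : Finset α) ⊆ (L.biUnion fun l => (sup l.1 : Finset α)) ∪ Z →
      (v d ↔ V F y' S' d) := fun d hd => hv1 d (hd.trans e3)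
  have hLin : ∀ l ∈ L, (sup l.1 : Finset α) ⊆ (L.biUnion fun l => (sup l.1 : Finset α)) ∪ Z :=
    fun l hl a ha => mem_union_left _ (mem_biUnion.2 ⟨l, hl, ha⟩)
  have hDin : ∀ d ∈ D, (sup d : Finset α) ⊆ (L.biUnion fun l => (sup l.1 : Finset α)) ∪ Z :=
    fun d hd a ha => mem_union_right _ (mem_union_left _ (mem_union_right _
      (mem_biUnion.2 ⟨d, hd, ha⟩)))
  have hPin : ∀ L' ∈ P, ∀ l ∈ L', (sup l.1 : Finset α) ⊆
      (L.biUnion fun l => (sup l.1 : Finset α)) ∪ Z :=
    fun L' hL' l hl a ha => mem_union_right _ (mem_union_left _ (mem_union_left _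
      (mem_biUnion.2 ⟨L', hL', mem_biUnion.2 ⟨l, hl, ha⟩⟩)))
  have hXin : ∀ x ∈ X, ∀ i, InY y' (x i) := by
    intro x hx i a hi
    apply e3
    refine mem_union_right _ (mem_union_right _ (mem_biUnion.2 ⟨x, hx, mem_biUnion.2
      ⟨i, mem_univ _, ?_⟩⟩))
    rw [hi]
    simp
  let S'' : Atom σ (α ⊕ B) → Prop := fun a =>
    if h : ∃ q, F.var q = some a then v h.choose else S' a
  have hS1 : ∀ q a, F.var q = some a → (v q ↔ S'' a) := by
    intro q a hq
    have hex : ∃ q, F.var q = some a := ⟨q, hq⟩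
    have : hex.choose = q := F.var_inj _ _ a hex.choose_spec hq
    simp only [S'', dif_pos hex, this]
  have hS2 : ∀ a : Atom σ (α ⊕ B), (∀ i, InY y' (a.2 i)) → (S'' a ↔ S' a) := by
    intro a ha
    by_cases hex : ∃ q, F.var q = some a
    · simp only [S'', dif_pos hex]
      have h1 := sup_subset_of_var F hF hK hsup hex.choose_spec y' ha
      rw [hv1 _ h1, V_var F _ _ hex.choose_spec]
    · simp only [S'', dif_neg hex]
  have hsat : SatLine v L := by
    apply h S'' v hS1
    · intro d hd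
      exact hv2 d (hDin d hd)
    · intro x hx
      obtain ⟨z, hz, hθ⟩ := e2 x (hXin x hx)
      refine ⟨z, ?_⟩
      have : (fun a : Atom σ (Fin Φ.p ⊕ Fin Φ.q) => S'' (a.map (Sum.elim x z))) =
          (fun a => S' (a.map (Sum.elim x z))) := by
        funext a
        apply propext
        apply hS2
        intro i
        show InY y' (Sum.elim x z (a.2 i))
        rcases a.2 i with j | j
        · exact hXin x hx j
        · exact hz j
      rw [this]
      exact hθ
    · intro L' hL'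
      obtain ⟨l, hl, hval⟩ := ih L' hL' y' S' e1 e2 (fun l hl => (hPin L' hL' l hl).trans e3)
      exact ⟨l, hl, by rw [hin l.1 (hPin L' hL' l hl)]; exact hval⟩
  obtain ⟨l, hl, hval⟩ := hsat
  exact ⟨l, hl, by rw [← hin l.1 (hLin l hl)]; exact hval⟩

end H688R2.Cnt
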