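import Pool.Agent.H688R2.Cnt.Defs

/-!
# Pigeonhole principles as sentences
-/

namespace H688R2.Cnt

open Equiv H688R2.Gap

/-- one unary relation symbol for each of the `n` holes: `R h a` says that the pigeon `a` sits in
the hole `h` -/
@[reducible] def holes (n : ℕ) : Sig where
  R := Fin n
  ar := fun _ => 1

/-- the atomic fact that `a` sits in the hole `h` -/
def sits {n : ℕ} {A : Type} (a : A) (h : Fin n) : Atom (holes n) A := ⟨h, fun _ => a⟩

/-- The functional pigeonhole principle: every pigeon `x₀` sits in exactly one of the `n` holes, and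
no other pigeon `x₁` sits there. -/
def fphp (n : ℕ) : Sentence (holes n) where
  p := 2
  q := 0
  θ := fun e at' => ∃ h : Fin n, at' (sits (.inl 0) h) ∧
    (∀ h', at' (sits (.inl 0) h') → h' = h) ∧
    (¬ e (.inl 0) (.inl 1) → ¬ at' (sits (.inl 1) h))

/-- The onto functional pigeonhole principle: in addition, in every hole `h` sits a pigeon `y_h`. -/
def ontoFphp (n : ℕ) : Sentence (holes n) where
  p := 2
  q := n
  θ := fun e at' => (∃ h : Fin n, at' (sits (.inl 0) h) ∧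
    (∀ h', at' (sits (.inl 0) h') → h' = h) ∧
    (¬ e (.inl 0) (.inl 1) → ¬ at' (sits (.inl 1) h))) ∧ ∀ h : Fin n, at' (sits (.inr h) h)

theorem map_sits {n : ℕ} {A A' : Type} (f : A → A') (a : A) (h : Fin n) :
    (sits a h).map f = sits (f a) h := rfl

/-- the instance of `fphp n` for `x`, spelled out -/
theorem fphp_inst {n : ℕ} {A : Type} (S : Atom (holes n) A → Prop) (x : Fin 2 → A) :
    (fphp n).Inst S x ↔ ∃ h : Fin n, S (sits (x 0) h) ∧ (∀ h', S (sits (x 0) h') → h' = h) ∧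
      (x 0 ≠ x 1 → ¬ S (sits (x 1) h)) := by
  constructor
  · rintro ⟨y, h, h1, h2, h3⟩
    exact ⟨h, h1, h2, h3⟩
  · rintro ⟨h, h1, h2, h3⟩
    exact ⟨fun i => i.elim0, h, h1, h2, h3⟩

/-- the instance of `ontoFphp n` for `x`, spelled out -/
theorem ontoFphp_inst {n : ℕ} {A : Type} (S : Atom (holes n) A → Prop) (x : Fin 2 → A) :
    (ontoFphp n).Inst S x ↔ (∃ h : Fin n, S (sits (x 0) h) ∧ (∀ h', S (sits (x 0) h') → h' = h) ∧
      (x 0 ≠ x 1 → ¬ S (sits (x 1) h))) ∧ ∀ h : Fin n, ∃ a, S (sits a h) := by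
  constructor
  · rintro ⟨y, ⟨h, h1, h2, h3⟩, h4⟩
    exact ⟨⟨h, h1, h2, h3⟩, fun h => ⟨y h, h4 h⟩⟩
  · rintro ⟨⟨h, h1, h2, h3⟩, h4⟩
    choose y hy using h4
    exact ⟨y, ⟨h, h1, h2, h3⟩, hy⟩

theorem fphp_models_iff {n : ℕ} {A : Type} (S : Atom (holes n) A → Prop) :
    (fphp n).Models S ↔ ∃ f : A → Fin n, Function.Injective f ∧
      ∀ a h, S (sits a h) ↔ f a = h := by
  constructor
  · intro hS
    have h1 : ∀ a, ∃ h : Fin n, S (sits a h) ∧ ∀ h', S (sits a h') → h' = h := by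
      intro a
      obtain ⟨h, h1, h2, _⟩ := (fphp_inst S _).1 (hS ![a, a])
      exact ⟨h, h1, h2⟩
    choose f hf1 hf2 using h1
    have hf : ∀ a h, S (sits a h) ↔ f a = h := by
      intro a h
      constructor
      · intro h'; exact (hf2 a h h').symm
      · rintro rfl; exact hf1 a
    refine ⟨f, ?_, hf⟩
    intro a b hab
    by_contra hne
    obtain ⟨h, h1, _, h3⟩ := (fphp_inst S _).1 (hS ![a, b])
    have h4 : f a = h := (hf a h).1 h1
    exact h3 hne ((hf b h).2 (by rw [← hab, h4]))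
  · rintro ⟨f, hf, hS⟩ (x : Fin 2 → A)
    rw [fphp_inst]
    refine ⟨f (x 0), (hS _ _).2 rfl, fun h' h => ((hS _ _).1 h).symm, fun hne h => ?_⟩
    exact hne (hf ((hS _ _).1 h)).symm

theorem ontoFphp_models {n : ℕ} {A : Type} (e : A ≃ Fin n) :
    (ontoFphp n).Models (fun a : Atom (holes n) A => e (a.2 0) = a.1) := by
  intro (x : Fin 2 → A)
  rw [ontoFphp_inst]
  refine ⟨⟨e (x 0), rfl, fun h' h => h.symm, fun hne h => ?_⟩, fun h => ⟨e.symm h, ?_⟩⟩
  · exact hne (e.injective h).symm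
  · exact e.apply_symm_apply h

theorem fphp_models {n : ℕ} {A : Type} (e : A ↪ Fin n) :
    (fphp n).Models (fun a : Atom (holes n) A => e (a.2 0) = a.1) :=
  (fphp_models_iff _).2 ⟨e, e.injective, fun _ _ => Iff.rfl⟩

/-- `fphp n` has a model with domain `A` iff there is an injection of `A` into the holes -/
theorem fphp_models_card {n : ℕ} {A : Type} :
    (∃ S : Atom (holes n) A → Prop, (fphp n).Models S) ↔ Nonempty (A ↪ Fin n) := by
  constructor
  · rintro ⟨S, hS⟩
    obtain ⟨f, hf, _⟩ := (fphp_models_iff S).1 hS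
    exact ⟨⟨f, hf⟩⟩
  · rintro ⟨e⟩
    exact ⟨_, fphp_models e⟩

end H688R2.Cnt
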