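import Pool.Agent.H688R2.Cnt.Php

/-!
# Symmetric refutations of the onto functional pigeonhole principle that count `j`-subsets
-/

namespace H688R2.Cnt

open Equiv H688R2.Gap Finset

/-- the `j`-element subsets -/
abbrev PS (A : Type) (j : ℕ) : Type := {P : Finset A // P.card = j}

/-- The formulas of the refutation: the variables `x a h`; `row a`: `a` sits somewhere; `col h`:
somebody sits in `h`; `r a H`: `a` sits in a hole of `H`; `z P H`: all the pigeons in `P` sit in holes of `H`;
`M P H b`: the number of true formulas among `z P H` is `b` modulo `m`; `E P`: the number of the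
`H` with `z P H` is `1` modulo `m`; `D H`: the number of the `P` with `z P H` is `1`; `T b`: the
number of all the pairs with `z P H` is `N.choose j`, or `n.choose j`. -/
inductive G (α : Type) (n j : ℕ) : Type where
  | x (a : α) (h : Fin n)
  | row (a : α)
  | col (h : Fin n)
  | r (a : α) (H : PS (Fin n) j)
  | z (P : PS α j) (H : PS (Fin n) j)
  | M (P : PS α j) (H : PS (Fin n) j) (b : Bool)
  | E (P : PS α j)
  | D (H : PS (Fin n) j)
  | T (b : Bool)

section

variable {α : Type} {n j m : ℕ}

instance [Fintype α] : Fintype (G α n j) := by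
  classical
  exact Fintype.ofEquiv _ (proxy_equiv% (G α n j))

/-- renaming the pigeons in a set of pigeons -/
def mvP (g : Perm α) (P : PS α j) : PS α j := ⟨P.1.map g.toEmbedding, by rw [card_map]; exact P.2⟩

def G.act (g : Perm α) : G α n j → G α n j
  | .x a h => .x (g a) h
  | .row a => .row (g a)
  | .col h => .col h
  | .r a H => .r (g a) H
  | .z P H => .z (mvP g P) H
  | .M P H b => .M (mvP g P) H b
  | .E P => .E (mvP g P)
  | .D H => .D H
  | .T b => .T b

theorem mvP_one (P : PS α j) : mvP 1 P = P := by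
  apply Subtype.ext
  show P.1.map (Function.Embedding.refl α) = P.1
  exact map_refl

theorem mvP_mul (g h : Perm α) (P : PS α j) : mvP (g * h) P = mvP g (mvP h P) := by
  apply Subtype.ext
  show P.1.map (Equiv.toEmbedding (g * h)) = (P.1.map h.toEmbedding).map g.toEmbedding
  rw [map_map]
  rfl

instance : MulAction (Perm α) (G α n j) where
  smul := G.act
  one_smul q := by
    show G.act 1 q = q
    cases q <;> simp [G.act, mvP_one]
  mul_smul g h q := by
    show G.act (g * h) q = G.act g (G.act h q)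
    cases q <;> simp [G.act, mvP_mul]

theorem smul_def (g : Perm α) (q : G α n j) : g • q = G.act g q := rfl

/-- immediate subformulas -/
def G.chld : G α n j → G α n j → Prop
  | .row a, .x a' _ => a' = a
  | .col h, .x _ h' => h' = h
  | .r a H, .x a' h => a' = a ∧ h ∈ H.1
  | .z P H, .r a H' => a ∈ P.1 ∧ H' = H
  | .M P H _, .z P' H' => P' = P ∧ H' = H
  | .E P, .z P' _ => P' = P
  | .D H, .z _ H' => H' = H
  | .T _, .z _ _ => True
  | _, _ => False

def G.lev : G α n j → ℕ
  | .x _ _ => 0
  | .row _ => 1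
  | .col _ => 1
  | .r _ _ => 1
  | .z _ _ => 2
  | .M _ _ _ => 3
  | .E _ => 3
  | .D _ => 3
  | .T _ => 3

/-- the residue in `T b` -/
def resT (m N n j : ℕ) (b : Bool) : ZMod m := if b then (N.choose j : ZMod m) else (n.choose j : ZMod m)

/-- the residue in `M P H b` -/
def resM (m : ℕ) (b : Bool) : ZMod m := if b then 1 else 0

/-- the circuit -/
def dag (m : ℕ) (α : Type) [Fintype α] (n j : ℕ) :
    MDag m (Atom (holes n) (α ⊕ Empty)) (G α n j) where
  level := G.lev
  var := fun q => match q with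
    | .x a h => some (sits (.inl a) h)
    | _ => none
  child := G.chld
  conn := fun q s t z => match q with
    | .x _ _ => False
    | .row _ => s
    | .col _ => s
    | .r _ _ => s
    | .z _ _ => ¬ t
    | .M _ _ b => z = resM m b
    | .E _ => z = 1
    | .D _ => z = 1
    | .T b => z = resT m (Fintype.card α) n j b
  child_lt := by
    intro q q' h
    cases q <;> cases q' <;> simp_all [G.chld, G.lev]
  var_inj := by
    intro q q' i h h'
    cases q <;> cases q' <;> simp_all
    rename_i a h1 a' h2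
    rw [← h] at h'
    unfold sits at h'
    have h3 := congrArg Sigma.fst h'
    simp only at h3
    subst h3
    have h4 := eq_of_heq (Sigma.mk.inj h').2
    have h5 := congrFun h4 0
    simp only [Sum.inl.injEq] at h5
    exact ⟨h5.symm, rfl⟩

theorem dag_invariant [Fintype α] : (dag m α n j).Invariant where
  var := by
    intro g q
    cases q <;> simp only [smul_def, G.act, dag, Option.map_none, Option.map_some]
    rfl
  child := by
    intro g q q'
    show G.chld (G.act g q) (G.act g q') ↔ G.chld q q'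
    have hP : ∀ P P' : PS α j, mvP g P = mvP g P' ↔ P = P' := by
      intro P P'
      constructor
      · intro h
        have := congrArg Subtype.val h
        exact Subtype.ext (map_injective _ this)
      · rintro rfl; rfl
    cases q <;> cases q' <;> simp [G.chld, G.act, mvP, Subtype.ext_iff]
  conn := by
    intro g q
    cases q <;> rfl

end

section derivation

variable {α : Type} {n j m : ℕ} [Fintype α]

open Classical

theorem resp_row {v : G α n j → Prop} {a : α} (h : (dag m α n j).Respects v (.row a)) :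
    v (.row a) ↔ ∃ i, v (.x a i) := by
  rw [h rfl]
  show (∃ q', G.chld (.row a) q' ∧ v q') ↔ _
  constructor
  · rintro ⟨q', h1, h2⟩
    cases q' <;> simp only [G.chld] at h1
    subst h1
    exact ⟨_, h2⟩
  · rintro ⟨i, h1⟩
    exact ⟨.x a i, rfl, h1⟩

theorem resp_col {v : G α n j → Prop} {i : Fin n} (h : (dag m α n j).Respects v (.col i)) :
    v (.col i) ↔ ∃ a, v (.x a i) := by
  rw [h rfl]
  show (∃ q', G.chld (.col i) q' ∧ v q') ↔ _
  constructor
  · rintro ⟨q', h1, h2⟩
    cases q' <;> simp only [G.chld] at h1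
    subst h1
    exact ⟨_, h2⟩
  · rintro ⟨a, h1⟩
    exact ⟨.x a i, rfl, h1⟩

theorem resp_r {v : G α n j → Prop} {a : α} {H : PS (Fin n) j}
    (h : (dag m α n j).Respects v (.r a H)) : v (.r a H) ↔ ∃ i ∈ H.1, v (.x a i) := by
  rw [h rfl]
  show (∃ q', G.chld (.r a H) q' ∧ v q') ↔ _
  constructor
  · rintro ⟨q', h1, h2⟩
    cases q' <;> simp only [G.chld] at h1
    obtain ⟨rfl, h1⟩ := h1
    exact ⟨_, h1, h2⟩
  · rintro ⟨i, h1, h2⟩
    exact ⟨.x a i, ⟨rfl, h1⟩, h2⟩

theorem resp_z {v : G α n j → Prop} {P : PS α j} {H : PS (Fin n) j}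
    (h : (dag m α n j).Respects v (.z P H)) : v (.z P H) ↔ ∀ a ∈ P.1, v (.r a H) := by
  rw [h rfl]
  show (¬ ∃ q', G.chld (.z P H) q' ∧ ¬ v q') ↔ _
  constructor
  · intro h1 a ha
    by_contra h2
    exact h1 ⟨.r a H, ⟨ha, rfl⟩, h2⟩
  · rintro h1 ⟨q', h2, h3⟩
    cases q' <;> simp only [G.chld] at h2
    obtain ⟨h2, rfl⟩ := h2
    exact h3 (h1 _ h2)

theorem resp_M {v : G α n j → Prop} {P : PS α j} {H : PS (Fin n) j} {b : Bool}
    (h : (dag m α n j).Respects v (.M P H b)) :
    v (.M P H b) ↔ (if v (.z P H) then 1 else 0) = resM m b := by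
  rw [h rfl]
  show (Nat.card {q' // G.chld (.M P H b) q' ∧ v q'} : ZMod m) = resM m b ↔ _
  by_cases hz : v (.z P H)
  · have : Nat.card {q' // G.chld (.M P H b) q' ∧ v q'} = 1 := by
      rw [Nat.card_eq_one_iff_unique]
      refine ⟨⟨?_⟩, ⟨.z P H, ⟨rfl, rfl⟩, hz⟩⟩
      rintro ⟨q1, h1, h2⟩ ⟨q2, h3, h4⟩
      cases q1 <;> simp only [G.chld] at h1
      cases q2 <;> simp only [G.chld] at h3
      obtain ⟨rfl, rfl⟩ := h1
      obtain ⟨rfl, rfl⟩ := h3
      rfl
    rw [this, if_pos hz, Nat.cast_one]
  · have : IsEmpty {q' // G.chld (.M P H b) q' ∧ v q'} := by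
      constructor
      rintro ⟨q1, h1, h2⟩
      cases q1 <;> simp only [G.chld] at h1
      obtain ⟨rfl, rfl⟩ := h1
      exact hz h2
    rw [Nat.card_of_isEmpty, if_neg hz, Nat.cast_zero]

theorem resp_T {v : G α n j → Prop} {b : Bool} (h : (dag m α n j).Respects v (.T b)) :
    v (.T b) ↔ (Nat.card {q' : G α n j // (∃ P H, q' = .z P H) ∧ v q'} : ZMod m) =
      resT m (Fintype.card α) n j b := by
  rw [h rfl]
  show (Nat.card {q' // G.chld (.T b) q' ∧ v q'} : ZMod m) = _ ↔ _
  have : ∀ q' : G α n j, G.chld (.T b) q' ↔ ∃ P H, q' = .z P H := by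
    intro q'
    cases q' <;> simp [G.chld]
  simp only [this]

/-- the facts about `x` that instances give -/
theorem inst_x {S : Atom (holes n) (α ⊕ Empty) → Prop} {v : G α n j → Prop}
    (hv : ∀ q a, (dag m α n j).var q = some a → (v q ↔ S a)) {a a' : α}
    (h : (ontoFphp n).Inst S ![.inl a, .inl a']) :
    ∃ i, v (.x a i) ∧ (∀ i', v (.x a i') → i' = i) ∧ (a ≠ a' → ¬ v (.x a' i)) := by
  obtain ⟨⟨i, h1, h2, h3⟩, -⟩ := (ontoFphp_inst S _).1 h
  refine ⟨i, (hv (.x a i) _ rfl).2 h1, fun i' h' => h2 i' ((hv (.x a i') _ rfl).1 h'), ?_⟩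
  intro hne h'
  refine h3 ?_ ((hv (.x a' i) _ rfl).1 h')
  intro h4
  apply hne
  simpa using h4

theorem inst_col {S : Atom (holes n) (α ⊕ Empty) → Prop} {v : G α n j → Prop}
    (hv : ∀ q a, (dag m α n j).var q = some a → (v q ↔ S a)) {x : Fin 2 → α ⊕ Empty}
    (h : (ontoFphp n).Inst S x) (i : Fin n) : ∃ a, v (.x a i) := by
  obtain ⟨-, h1⟩ := (ontoFphp_inst S _).1 h
  obtain ⟨a, ha⟩ := h1 i
  rcases a with a | b
  · exact ⟨a, (hv (.x a i) _ rfl).2 ha⟩
  · exact b.elim

/-- derived lines, with the parameters fixed -/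
def Der (m s : ℕ) (L : Finset (G α n j × Bool)) : Prop :=
  (dag m α n j).Derives (ontoFphp n) (j + 1) 4 s L

/-- a derived line from at most four ingredients -/
theorem Der.infer' {s : ℕ} (L : Finset (G α n j × Bool)) (D : Finset (G α n j))
    (X : Finset (Fin 2 → α ⊕ Empty)) (P : Finset (Finset (G α n j × Bool)))
    (hw : L.card ≤ j + 1) (hc : D.card + X.card + P.card ≤ 4) (hP : ∀ L' ∈ P, Der m s L')
    (h : ∀ (S : Atom (holes n) (α ⊕ Empty) → Prop) (v : G α n j → Prop),
      (∀ q a, (dag m α n j).var q = some a → (v q ↔ S a)) →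
      (∀ q ∈ D, (dag m α n j).Respects v q) → (∀ x ∈ X, (ontoFphp n).Inst S x) →
      (∀ L' ∈ P, SatLine v L') → ¬ SatLine v L → False) : Der m s L :=
  MDag.Derives.infer L D X P hw hc hP fun S v h1 h2 h3 h4 => by
    by_contra h5
    exact h S v h1 h2 h3 h4 h5

theorem not_sat_insert {v : G α n j → Prop} {q : G α n j} {b : Bool}
    {Γ : Finset (G α n j × Bool)} (h : ¬ SatLine v (insert (q, b) Γ)) :
    (v q ↔ b = false) ∧ ¬ SatLine v Γ := by
  constructor
  · have : ¬ (v q ↔ b = true) := fun h' => h ⟨(q, b), mem_insert_self _ _, h'⟩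
    cases b
    · simp only [Bool.false_eq_true, iff_false, not_not] at this
      simp [this]
    · simp only [iff_true] at this
      simp [this]
  · rintro ⟨l, hl, hv⟩
    exact h ⟨l, mem_insert_of_mem hl, hv⟩

/-- the context: `a` sits in `φ a` for the pigeons `a` in `U` -/
noncomputable def ctx (U : Finset α) (φ : α → Fin n) : Finset (G α n j × Bool) :=
  U.image fun a => (G.x a (φ a), false)

/-- the context: `ψ i` sits in `i` for the holes `i` in `U` -/
noncomputable def ctx' (U : Finset (Fin n)) (ψ : Fin n → α) : Finset (G α n j × Bool) :=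
  U.image fun i => (G.x (ψ i) i, false)

theorem card_ctx (U : Finset α) (φ : α → Fin n) :
    (ctx U φ : Finset (G α n j × Bool)).card ≤ U.card := card_image_le

theorem card_ctx' (U : Finset (Fin n)) (ψ : Fin n → α) :
    (ctx' U ψ : Finset (G α n j × Bool)).card ≤ U.card := card_image_le

theorem of_not_ctx {v : G α n j → Prop} {U : Finset α} {φ : α → Fin n}
    (h : ¬ SatLine v (ctx U φ : Finset (G α n j × Bool))) {a : α} (ha : a ∈ U) :
    v (.x a (φ a)) := by
  by_contra h'
  exact h ⟨(.x a (φ a), false), mem_image.2 ⟨a, ha, rfl⟩, by simpa using h'⟩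

theorem of_not_ctx' {v : G α n j → Prop} {U : Finset (Fin n)} {ψ : Fin n → α}
    (h : ¬ SatLine v (ctx' U ψ : Finset (G α n j × Bool))) {i : Fin n} (hi : i ∈ U) :
    v (.x (ψ i) i) := by
  by_contra h'
  exact h ⟨(.x (ψ i) i, false), mem_image.2 ⟨i, hi, rfl⟩, by simpa using h'⟩

end derivation

end H688R2.Cnt
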