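import Pool.Agent.H688R2.Cnt.Upper

/-!
# The derivations
-/

namespace H688R2.Cnt

open Equiv H688R2.Gap Finset Classical

variable {α : Type} {n j m : ℕ} [Fintype α] {s : ℕ}

theorem row_true (a : α) : Der m s {((G.row a : G α n j), true)} := by
  apply Der.infer' _ {G.row a} {![.inl a, .inl a]} ∅ (by simp) (by simp) (by simp)
  intro S v hv hD hX _ hL
  obtain ⟨i, h1, -, -⟩ := inst_x hv (hX _ (mem_singleton_self _))
  exact hL ⟨(G.row a, true), by simp, by simpa using (resp_row (hD _ (by simp))).2 ⟨i, h1⟩⟩

theorem col_true (a : α) (i : Fin n) : Der m s {((G.col i : G α n j), true)} := by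
  apply Der.infer' _ {G.col i} {![.inl a, .inl a]} ∅ (by simp) (by simp) (by simp)
  intro S v hv hD hX _ hL
  obtain ⟨a', h1⟩ := inst_col hv (hX _ (mem_singleton_self _)) i
  exact hL ⟨(G.col i, true), by simp, by simpa using (resp_col (hD _ (by simp))).2 ⟨a', h1⟩⟩

/-- case distinction over the immediate subformulas of a disjunction -/
theorem Der.elim {L : Finset (G α n j × Bool)} {q : G α n j} (hq : (dag m α n j).var q = none)
    (hor : ∀ p t z, (dag m α n j).conn q p t z ↔ p) (h1 : Der m s {(q, true)})
    (hw : L.card + 1 ≤ j + 1)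
    (h2 : ∀ q', G.chld q q' → Der m s (insert (q', false) L)) : Der m s L := by
  have h3 : Der m s (insert (q, false) L) := by
    apply MDag.Derives.wide L q false false ((card_insert_le _ _).trans hw) hq h2
    rw [hor]
    simp
  apply Der.infer' L ∅ ∅ {insert (q, false) L, {(q, true)}} (by omega)
    (by
      have := card_le_two (a := insert (q, false) L) (b := ({(q, true)} : Finset _))
      simp only [card_empty, zero_add]
      omega)
    (by
      intro L' hL'
      simp only [mem_insert, mem_singleton] at hL'
      rcases hL' with rfl | rfl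
      · exact h3
      · exact h1)
  intro S v hv hD hX hP hL
  obtain ⟨l, hl, hlv⟩ := hP {(q, true)} (by simp)
  rw [mem_singleton] at hl
  subst hl
  obtain ⟨l, hl, hlv'⟩ := hP (insert (q, false) L) (by simp)
  rcases mem_insert.1 hl with rfl | hl
  · simp at hlv hlv'
    exact hlv' hlv
  · exact hL ⟨l, hl, hlv'⟩

theorem few_of_range {τ Z : Type} [Fintype τ] (f : G α n j → Z) (F : τ → G α n j → Z)
    (h : ∀ (f' : G α n j → Z) (g : Perm α), (∀ x, f' (g • x) = f x) → ∃ t, f' = F t)
    (hs : Fintype.card τ ≤ s) : FewImages α s f := by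
  unfold FewImages
  choose t ht using fun (f' : {f' : G α n j → Z // ∃ g : Perm α, ∀ x, f' (g • x) = f x}) =>
    h f'.1 f'.2.choose f'.2.choose_spec
  refine le_trans ?_ hs
  rw [← Nat.card_eq_fintype_card]
  apply Nat.card_le_card_of_injective t
  intro f1 f2 h12
  apply Subtype.ext
  rw [ht f1, ht f2, h12]

theorem eq_of_smul {Z : Type} {f' F : G α n j → Z} {g : Perm α}
    (h : ∀ x, f' (g • x) = F (g • x)) : f' = F := by
  funext x
  have := h (g⁻¹ • x)
  rwa [smul_inv_smul] at this

theorem mvP_inj {g : Perm α} {P P' : PS α j} : mvP g P = mvP g P' ↔ P = P' := by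
  constructor
  · intro h
    exact Subtype.ext (map_injective _ (congrArg Subtype.val h))
  · rintro rfl; rfl

/-- the coefficients for `E P` -/
noncomputable def aE (m : ℕ) (H₀ : PS (Fin n) j) (P : PS α j) : G α n j → ZMod m
  | .M P' H b => if P' = P ∧ b = decide (H = H₀) then 1 else 0
  | _ => 0

/-- the coefficients for `D H` -/
noncomputable def aD (m : ℕ) (H : PS (Fin n) j) (P₀ : PS α j) : G α n j → ZMod m
  | .M P H' b => if H' = H ∧ b = decide (P = P₀) then 1 else 0
  | _ => 0

/-- the residues -/
def rM (m : ℕ) : G α n j → ZMod m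
  | .M _ _ b => resM m b
  | _ => 0

theorem few_aE (hs : (Fintype.card α).choose j ≤ s) (H₀ : PS (Fin n) j) (P : PS α j) :
    FewImages α s (aE m H₀ P) := by
  apply few_of_range _ (aE m H₀) _ (by rw [Fintype.card_finset_len]; exact hs)
  intro f' g h
  refine ⟨mvP g P, eq_of_smul (g := g) ?_⟩
  intro x
  rw [h]
  cases x <;> simp [aE, smul_def, G.act, mvP_inj]

theorem few_aD (hs : (Fintype.card α).choose j ≤ s) (H : PS (Fin n) j) (P₀ : PS α j) :
    FewImages α s (aD m H P₀) := by
  apply few_of_range _ (aD m H) _ (by rw [Fintype.card_finset_len]; exact hs)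
  intro f' g h
  refine ⟨mvP g P₀, eq_of_smul (g := g) ?_⟩
  intro x
  rw [h]
  cases x <;> simp [aD, smul_def, G.act, mvP_inj]

theorem E_of_M (hs : (Fintype.card α).choose j ≤ s) (Γ : Finset (G α n j × Bool)) (P : PS α j)
    (H₀ : PS (Fin n) j) (hw : (insert (G.E P, true) Γ).card ≤ j + 1)
    (h : ∀ H, Der m s (insert (G.M P H (decide (H = H₀)), true) Γ)) :
    Der m s (insert (G.E P, true) Γ) := by
  apply MDag.Derives.linear Γ (G.E P) 1 (aE m H₀ P) (rM m) hw (few_aE hs H₀ P)
    ⟨rfl, fun _ _ _ => Iff.rfl⟩
  · intro q' hq'
    cases q' with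
    | M P' H b => exact ⟨rfl, fun _ _ _ => Iff.rfl⟩
    | _ => exact absurd rfl hq'
  · intro q' hq'
    cases q' with
    | M P' H b =>
      have h1 : P' = P ∧ b = decide (H = H₀) := by
        by_contra h2
        exact hq' (if_neg h2)
      obtain ⟨rfl, rfl⟩ := h1
      exact h H
    | _ => exact absurd rfl hq'
  · intro q''
    show (if G.chld (G.E P) q'' then (1 : ZMod m) else 0) =
      ∑ q', aE m H₀ P q' * (if G.chld q' q'' then (1 : ZMod m) else 0)
    by_cases hq : ∃ H, q'' = G.z P H
    · obtain ⟨H, rfl⟩ := hq
      rw [if_pos (show G.chld (G.E P) (G.z P H) from rfl),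
        Finset.sum_eq_single (G.M P H (decide (H = H₀)))]
      · simp [aE, G.chld]
      · intro q' _ hne
        cases q' with
        | M P' H' b =>
          by_cases h1 : P' = P ∧ b = decide (H' = H₀)
          · obtain ⟨rfl, rfl⟩ := h1
            have h2 : H ≠ H' := by rintro rfl; exact hne rfl
            simp [G.chld, h2]
          · simp [aE, h1]
        | _ => simp [aE]
      · simp
    · rw [Finset.sum_eq_zero, if_neg]
      · intro h1
        cases q'' <;> simp only [G.chld] at h1
        subst h1
        exact hq ⟨_, rfl⟩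
      · intro q' _
        cases q' with
        | M P' H' b =>
          by_cases h1 : P' = P ∧ b = decide (H' = H₀)
          · obtain ⟨rfl, rfl⟩ := h1
            rw [if_neg, mul_zero]
            intro h2
            cases q'' <;> simp only [G.chld] at h2
            obtain ⟨rfl, rfl⟩ := h2
            exact hq ⟨_, rfl⟩
          · simp [aE, h1]
        | _ => simp [aE]
  · rw [Finset.sum_eq_single (G.M P H₀ true)]
    · simp [aE, rM, resM]
    · intro q' _ hne
      cases q' with
      | M P' H' b =>
        by_cases h1 : P' = P ∧ b = decide (H' = H₀)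
        · obtain ⟨rfl, rfl⟩ := h1
          have h2 : H' ≠ H₀ := by
            rintro rfl
            apply hne
            simp
          simp [rM, resM, h2]
        · simp [aE, h1]
      | _ => simp [aE]
    · simp

theorem D_of_M (hs : (Fintype.card α).choose j ≤ s) (Γ : Finset (G α n j × Bool))
    (H : PS (Fin n) j) (P₀ : PS α j) (hw : (insert (G.D H, true) Γ).card ≤ j + 1)
    (h : ∀ P, Der m s (insert (G.M P H (decide (P = P₀)), true) Γ)) :
    Der m s (insert (G.D H, true) Γ) := by
  apply MDag.Derives.linear Γ (G.D H) 1 (aD m H P₀) (rM m) hw (few_aD hs H P₀)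
    ⟨rfl, fun _ _ _ => Iff.rfl⟩
  · intro q' hq'
    cases q' with
    | M P' H b => exact ⟨rfl, fun _ _ _ => Iff.rfl⟩
    | _ => exact absurd rfl hq'
  · intro q' hq'
    cases q' with
    | M P H' b =>
      have h1 : H' = H ∧ b = decide (P = P₀) := by
        by_contra h2
        exact hq' (if_neg h2)
      obtain ⟨rfl, rfl⟩ := h1
      exact h P
    | _ => exact absurd rfl hq'
  · intro q''
    show (if G.chld (G.D H) q'' then (1 : ZMod m) else 0) =
      ∑ q', aD m H P₀ q' * (if G.chld q' q'' then (1 : ZMod m) else 0)
    by_cases hq : ∃ P, q'' = G.z P H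
    · obtain ⟨P, rfl⟩ := hq
      rw [if_pos (show G.chld (G.D H) (G.z P H) from rfl),
        Finset.sum_eq_single (G.M P H (decide (P = P₀)))]
      · simp [aD, G.chld]
      · intro q' _ hne
        cases q' with
        | M P' H' b =>
          by_cases h1 : H' = H ∧ b = decide (P' = P₀)
          · obtain ⟨rfl, rfl⟩ := h1
            have h2 : P ≠ P' := by rintro rfl; exact hne rfl
            simp [G.chld, h2]
          · simp [aD, h1]
        | _ => simp [aD]
      · simp
    · rw [Finset.sum_eq_zero, if_neg]
      · intro h1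
        cases q'' <;> simp only [G.chld] at h1
        subst h1
        exact hq ⟨_, rfl⟩
      · intro q' _
        cases q' with
        | M P' H' b =>
          by_cases h1 : H' = H ∧ b = decide (P' = P₀)
          · obtain ⟨rfl, rfl⟩ := h1
            rw [if_neg, mul_zero]
            intro h2
            cases q'' <;> simp only [G.chld] at h2
            obtain ⟨rfl, rfl⟩ := h2
            exact hq ⟨_, rfl⟩
          · simp [aD, h1]
        | _ => simp [aD]
  · rw [Finset.sum_eq_single (G.M P₀ H true)]
    · simp [aD, rM, resM]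
    · intro q' _ hne
      cases q' with
      | M P' H' b =>
        by_cases h1 : H' = H ∧ b = decide (P' = P₀)
        · obtain ⟨rfl, rfl⟩ := h1
          have h2 : P' ≠ P₀ := by
            rintro rfl
            apply hne
            simp
          simp [rM, resM, h2]
        · simp [aD, h1]
      | _ => simp [aD]
    · simp

/-- the formulas `E P` imply `T true` -/
theorem T_of_E (hs : 1 ≤ s) (h : ∀ P, Der m s {((G.E P : G α n j), true)}) :
    Der m s {((G.T true : G α n j), true)} := by
  let a : G α n j → ZMod m := fun q => match q with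
    | .E _ => 1
    | _ => 0
  have hins : ∀ q : G α n j, ({(q, true)} : Finset (G α n j × Bool)) = insert (q, true) ∅ :=
    fun q => rfl
  rw [hins]
  apply MDag.Derives.linear ∅ (G.T true) (resT m (Fintype.card α) n j true) a a (by simp) _
    ⟨rfl, fun _ _ _ => Iff.rfl⟩
  · intro q' hq'
    cases q' with
    | E P => exact ⟨rfl, fun _ _ _ => Iff.rfl⟩
    | _ => exact absurd rfl hq'
  · intro q' hq'
    cases q' with
    | E P => exact h P
    | _ => exact absurd rfl hq'
  · intro q''
    show (if G.chld (G.T true) q'' then (1 : ZMod m) else 0) =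
      ∑ q', a q' * (if G.chld q' q'' then (1 : ZMod m) else 0)
    by_cases hq : ∃ P H, q'' = G.z P H
    · obtain ⟨P, H, rfl⟩ := hq
      rw [if_pos (show G.chld (G.T true) (G.z P H) from trivial),
        Finset.sum_eq_single (G.E P)]
      · simp [a, G.chld]
      · intro q' _ hne
        cases q' with
        | E P' =>
          have h2 : P ≠ P' := by rintro rfl; exact hne rfl
          simp [G.chld, h2]
        | _ => simp [a]
      · simp
    · rw [Finset.sum_eq_zero, if_neg]
      · intro h1
        cases q'' <;> simp only [G.chld] at h1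
        exact hq ⟨_, _, rfl⟩
      · intro q' _
        cases q' with
        | E P' =>
          rw [if_neg, mul_zero]
          intro h2
          cases q'' <;> simp only [G.chld] at h2
          exact hq ⟨_, _, rfl⟩
        | _ => simp [a]
  · rw [← Fintype.sum_of_injective (fun P : PS α j => (G.E P : G α n j))
      (fun P P' hPP => by simpa using hPP) (fun _ => (1 : ZMod m)) (fun q' => a q' * a q')]
    · rw [sum_const, card_univ, Fintype.card_finset_len, nsmul_eq_mul, mul_one]
      rfl
    · intro q hq
      cases q with
      | E P => exact absurd ⟨P, rfl⟩ hq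
      | _ => simp [a]
    · intro P
      simp [a]
  · apply few_of_range a (fun _ : Unit => a) _ (by simpa using hs)
    intro f' g h'
    refine ⟨(), eq_of_smul (g := g) ?_⟩
    intro x
    rw [h']
    cases x <;> simp [a, smul_def, G.act]

/-- the formulas `D H` imply `T false` -/
theorem T_of_D (hs : 1 ≤ s) (h : ∀ H, Der m s {((G.D H : G α n j), true)}) :
    Der m s {((G.T false : G α n j), true)} := by
  let a : G α n j → ZMod m := fun q => match q with
    | .D _ => 1
    | _ => 0
  have hins : ∀ q : G α n j, ({(q, true)} : Finset (G α n j × Bool)) = insert (q, true) ∅ :=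
    fun q => rfl
  rw [hins]
  apply MDag.Derives.linear ∅ (G.T false) (resT m (Fintype.card α) n j false) a a (by simp) _
    ⟨rfl, fun _ _ _ => Iff.rfl⟩
  · intro q' hq'
    cases q' with
    | D P => exact ⟨rfl, fun _ _ _ => Iff.rfl⟩
    | _ => exact absurd rfl hq'
  · intro q' hq'
    cases q' with
    | D P => exact h P
    | _ => exact absurd rfl hq'
  · intro q''
    show (if G.chld (G.T false) q'' then (1 : ZMod m) else 0) =
      ∑ q', a q' * (if G.chld q' q'' then (1 : ZMod m) else 0)
    by_cases hq : ∃ P H, q'' = G.z P H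
    · obtain ⟨P, H, rfl⟩ := hq
      rw [if_pos (show G.chld (G.T false) (G.z P H) from trivial),
        Finset.sum_eq_single (G.D H)]
      · simp [a, G.chld]
      · intro q' _ hne
        cases q' with
        | D H' =>
          have h2 : H ≠ H' := by rintro rfl; exact hne rfl
          simp [G.chld, h2]
        | _ => simp [a]
      · simp
    · rw [Finset.sum_eq_zero, if_neg]
      · intro h1
        cases q'' <;> simp only [G.chld] at h1
        exact hq ⟨_, _, rfl⟩
      · intro q' _
        cases q' with
        | D P' =>
          rw [if_neg, mul_zero]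
          intro h2
          cases q'' <;> simp only [G.chld] at h2
          exact hq ⟨_, _, rfl⟩
        | _ => simp [a]
  · rw [← Fintype.sum_of_injective (fun P : PS (Fin n) j => (G.D P : G α n j))
      (fun P P' hPP => by simpa using hPP) (fun _ => (1 : ZMod m)) (fun q' => a q' * a q')]
    · rw [sum_const, card_univ, Fintype.card_finset_len, nsmul_eq_mul, mul_one, Fintype.card_fin]
      rfl
    · intro q hq
      cases q with
      | D P => exact absurd ⟨P, rfl⟩ hq
      | _ => simp [a]
    · intro P
      simp [a]
  · apply few_of_range a (fun _ : Unit => a) _ (by simpa using hs)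
    intro f' g h'
    refine ⟨(), eq_of_smul (g := g) ?_⟩
    intro x
    rw [h']
    cases x <;> simp [a, smul_def, G.act]

end H688R2.Cnt
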