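import Pool.Agent.H688R2.Sym.Count
import Pool.Agent.H688R2.Gap.Low

/-!
# Sums over the formulas whose support sticks out of a set
-/

namespace H688R2.Cnt

open Equiv Finset H688R2.Sym H534R2.SymSw

variable {α Q : Type} {m : ℕ} [DecidableEq α] [Fintype α] [MulAction (Perm α) Q]

/-- an even permutation fixing `Z` and moving `W` to `W'` -/
theorem exists_even_map (Z W W' : Finset α) (h1 : Disjoint Z W) (h2 : Disjoint Z W')
    (hc : W.card = W'.card) (hT : Z.card + W.card + 2 ≤ Fintype.card α) :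
    ∃ g : Perm α, Perm.sign g = 1 ∧ (∀ a ∈ Z, g a = a) ∧ W.map g.toEmbedding = W' := by
  obtain ⟨g, g1, g2, g3, _⟩ := exists_perm (S := Z) (B := W) (D := ∅) (B' := W') (D' := ∅) h1
    (disjoint_empty_right _) (disjoint_empty_right _) h2 (disjoint_empty_right _)
    (disjoint_empty_right _) hc rfl (by simpa using hT)
  refine ⟨g, g1, g2, ?_⟩
  ext x
  rw [mem_map]
  constructor
  · rintro ⟨a, ha, rfl⟩
    exact (g3 a).2 ha
  · intro hx
    refine ⟨g⁻¹ x, ?_, by simp⟩
    rw [← g3]
    simpa using hx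

/-- an even permutation fixing `Z₀` and moving `y` to a set that contains `Z` -/
theorem exists_move (y Z₀ Z : Finset α) (h0 : Z₀ ⊆ y) (hZ : Z₀ ⊆ Z) (h : Z.card ≤ y.card)
    (h2 : Z.card + 2 ≤ Fintype.card α) :
    ∃ g : Perm α, Perm.sign g = 1 ∧ (∀ a ∈ Z₀, g a = a) ∧ Z ⊆ y.map g.toEmbedding := by
  have e1 : (Z \ y).card ≤ (y \ Z).card := by
    have h3 := card_sdiff_add_card_inter Z y
    have h4 := card_sdiff_add_card_inter y Z
    rw [inter_comm] at h4
    omega
  obtain ⟨W, hW1, hW2⟩ := exists_subset_card_eq e1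
  obtain ⟨g, g1, g2, g3⟩ := exists_even_map (Z ∩ y) W (Z \ y)
    (disjoint_left.2 fun a ha hb => (mem_sdiff.1 (hW1 hb)).2 (mem_inter.1 ha).1)
    (disjoint_left.2 fun a ha hb => (mem_sdiff.1 hb).2 (mem_inter.1 ha).2) hW2 (by
      rw [hW2]
      have h3 := card_sdiff_add_card_inter Z y
      omega)
  refine ⟨g, g1, fun a ha => g2 a (mem_inter.2 ⟨hZ ha, h0 ha⟩), ?_⟩
  intro z hz
  by_cases hzy : z ∈ y
  · rw [mem_map]
    exact ⟨z, hzy, g2 z (mem_inter.2 ⟨hz, hzy⟩)⟩
  · have : z ∈ W.map g.toEmbedding := by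
      rw [g3]
      exact mem_sdiff.2 ⟨hz, hzy⟩
    exact map_subset_map.2 (fun x hx => (mem_sdiff.1 (hW1 hx)).1) this

theorem vanish [Fintype Q] {k : ℕ} (hk : ∀ q : Q, (sup q : Finset α).card ≤ k) (y : Finset α)
    (hm : ∀ j, 1 ≤ j → j ≤ k → m ∣ ((yᶜ : Finset α).card).choose j) (W : Q → ZMod m)
    (hW : ∀ u t t' : Finset α, u ⊆ y → Disjoint t y → Disjoint t' y → t.card = t'.card →
      u.card + t.card ≤ k →
      ∑ q with (sup q : Finset α) = u ∪ t, W q = ∑ q with (sup q : Finset α) = u ∪ t', W q) :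
    ∑ q with ¬ (sup q : Finset α) ⊆ y, W q = 0 := by
  classical
  let f : Q → Finset α × ℕ := fun q => ((sup q : Finset α) ∩ y, ((sup q : Finset α) \ y).card)
  rw [← Finset.sum_fiberwise_of_maps_to (g := f)
    (t := (univ.filter fun q => ¬ (sup q : Finset α) ⊆ y).image f)
    (fun q hq => mem_image_of_mem _ hq)]
  apply Finset.sum_eq_zero
  intro p hp
  rw [mem_image] at hp
  obtain ⟨q0, hq0, rfl⟩ := hp
  rw [mem_filter] at hq0
  set s0 : Finset α := sup q0 with hs0
  set u := s0 ∩ y with hu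
  set j := (s0 \ y).card with hj
  have hj1 : 1 ≤ j := by
    rw [hj, Nat.one_le_iff_ne_zero, Ne, card_eq_zero, sdiff_eq_empty_iff_subset]
    exact hq0.2
  have huj : u.card + j = s0.card := by
    have := card_sdiff_add_card_inter s0 y
    rw [← hu, ← hj] at this
    omega
  have hk0 : u.card + j ≤ k := by rw [huj]; exact hk q0
  have hfil : ∀ q, (q ∈ (univ.filter fun q => ¬ (sup q : Finset α) ⊆ y) ∧ f q = (u, j)) ↔
      (sup q : Finset α) ∩ y = u ∧ ((sup q : Finset α) \ y).card = j := by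
    intro q
    simp only [f, mem_filter, mem_univ, true_and, Prod.mk.injEq]
    constructor
    · rintro ⟨_, h⟩; exact h
    · rintro ⟨h1, h2⟩
      refine ⟨fun h => ?_, h1, h2⟩
      rw [sdiff_eq_empty_iff_subset.2 h] at h2
      simp at h2
      omega
  have e1 : ((univ.filter fun q => ¬ (sup q : Finset α) ⊆ y).filter fun q => f q = f q0) =
      univ.filter fun q => (sup q : Finset α) ∩ y = u ∧ ((sup q : Finset α) \ y).card = j := by
    ext q
    rw [mem_filter]
    rw [show f q0 = (u, j) from rfl, hfil]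
    simp
  rw [e1, ← Finset.sum_fiberwise_of_maps_to (g := fun q => (sup q : Finset α) \ y)
    (t := powersetCard j yᶜ) (fun q hq => by
      rw [mem_filter] at hq
      rw [mem_powersetCard]
      refine ⟨fun a ha => ?_, hq.2.2⟩
      rw [mem_compl]
      exact (mem_sdiff.1 ha).2)]
  have e2 : ∀ t ∈ powersetCard j yᶜ,
      ∑ q ∈ (univ.filter fun q => (sup q : Finset α) ∩ y = u ∧ ((sup q : Finset α) \ y).card = j)
        with (sup q : Finset α) \ y = t, W q = ∑ q with (sup q : Finset α) = u ∪ (s0 \ y), W q := by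
    intro t ht
    rw [mem_powersetCard] at ht
    have hty : Disjoint t y := disjoint_left.2 fun a ha hb => mem_compl.1 (ht.1 ha) hb
    have huy : u ⊆ y := inter_subset_right
    rw [← hW u t (s0 \ y) huy hty sdiff_disjoint (by rw [ht.2]) (by rw [ht.2]; exact hk0)]
    apply Finset.sum_congr _ fun _ _ => rfl
    ext q
    simp only [mem_filter, mem_univ, true_and]
    constructor
    · rintro ⟨⟨h1, _⟩, h2⟩
      rw [← h1, ← h2, union_comm]
      exact (sdiff_union_inter _ _).symm
    · intro h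
      have h3 : (sup q : Finset α) ∩ y = u := by
        rw [h, union_inter_distrib_right, disjoint_iff_inter_eq_empty.1 hty, union_empty]
        exact inter_eq_left.2 huy
      have h4 : (sup q : Finset α) \ y = t := by
        rw [h, union_sdiff_distrib, sdiff_eq_empty_iff_subset.2 huy, empty_union]
        exact sdiff_eq_self_of_disjoint hty
      exact ⟨⟨h3, by rw [h4]; exact ht.2⟩, h4⟩
  rw [Finset.sum_congr rfl e2, Finset.sum_const, card_powersetCard, nsmul_eq_mul,
    (ZMod.natCast_eq_zero_iff _ m).2 (hm j hj1 (by omega)), zero_mul]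

theorem sup_smul_union {g : Perm α} {Z u t t' : Finset α} (h1 : ∀ a ∈ Z ∪ u, g a = a)
    (h2 : t.map g.toEmbedding = t') : (u ∪ t).map g.toEmbedding = u ∪ t' := by
  rw [map_union, h2]
  congr 1
  ext x
  rw [mem_map]
  constructor
  · rintro ⟨a, ha, rfl⟩
    change g a ∈ u
    rw [h1 a (mem_union_right _ ha)]
    exact ha
  · intro hx
    exact ⟨x, hx, h1 x (mem_union_right _ hx)⟩

/-- if `W` is invariant under the even permutations fixing a small subset of `y` -/
theorem vanish_inv [Fintype Q] {k : ℕ} (hk : ∀ q : Q, (sup q : Finset α).card ≤ k) (y : Finset α)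
    (hm : ∀ j, 1 ≤ j → j ≤ k → m ∣ ((yᶜ : Finset α).card).choose j) (W : Q → ZMod m)
    (Z : Finset α) (hZy : Z ⊆ y) (hZ : Z.card + k + 2 ≤ Fintype.card α)
    (hW : ∀ g : Perm α, Perm.sign g = 1 → (∀ a ∈ Z, g a = a) → ∀ q, W (g • q) = W q) :
    ∑ q with ¬ (sup q : Finset α) ⊆ y, W q = 0 := by
  classical
  apply vanish hk y hm W
  intro u t t' hu ht ht' hc huk
  obtain ⟨g, g1, g2, g3⟩ := exists_even_map (Z ∪ u) t t'
    (disjoint_left.2 fun a ha hb => disjoint_left.1 ht hb ((union_subset hZy hu) ha))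
    (disjoint_left.2 fun a ha hb => disjoint_left.1 ht' hb ((union_subset hZy hu) ha)) hc (by
      have := card_union_le Z u
      omega)
  have key := sup_smul_union g2 g3
  apply Finset.sum_equiv (MulAction.toPerm g)
  · intro q
    simp only [mem_filter, mem_univ, true_and, MulAction.toPerm_apply]
    rw [sup_smul, ← key]
    constructor
    · intro h; rw [h]
    · intro h; exact map_injective _ h
  · intro q _
    rw [MulAction.toPerm_apply, hW g g1 (fun a ha => g2 a (mem_union_left _ ha))]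

end H688R2.Cnt
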