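import Pool.Agent.H688R2.Cnt.Main

/-!
# The wide rules
-/

namespace H688R2.Cnt

open Equiv Finset H688R2.Sym H688R2.Gap H534R2.SymSw

variable {σ : Sig} {α B Q : Type} {m : ℕ} [DecidableEq α] [Fintype α] [Fintype Q]
  [MulAction (Perm α) Q]

theorem exists_inside {k : ℕ}
    (hsup : ∀ q : Q, (sup q : Finset α).card ≤ k ∧ IsSup (sup q : Finset α) q)
    (y Z : Finset α) (hZ : Z ⊆ y) (hc : Z.card + k + 2 ≤ y.card) (q : Q) :
    ∃ g : Perm α, Perm.sign g = 1 ∧ (∀ a ∈ Z, g a = a) ∧ (sup (g • q) : Finset α) ⊆ y := by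
  have hyK : y.card ≤ Fintype.card α := card_le_univ y
  have h1 := card_union_le Z (sup q : Finset α)
  have h2 := (hsup q).1
  obtain ⟨g, g1, g2, g3⟩ := exists_move y Z (Z ∪ sup q) hZ subset_union_left (by omega) (by omega)
  refine ⟨g⁻¹, by rw [Perm.sign_inv, g1], fun a ha => ?_, ?_⟩
  · rw [Perm.inv_eq_iff_eq, g2 a ha]
  · intro x hx
    have h3 : g x ∈ (sup q : Finset α) := by
      have := (mem_sup_smul g (g⁻¹ • q) x).2 hx
      rwa [smul_inv_smul] at this
    obtain ⟨x', hx', he⟩ := mem_map.1 (g3 (mem_union_right _ h3))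
    rw [← g.injective he]
    exact hx'

theorem card_split (y : Finset α) (W : Q → ZMod m)
    (h : ∑ q with ¬ (sup q : Finset α) ⊆ y, W q = 0) :
    ∑ q, W q = ∑ q with (sup q : Finset α) ⊆ y, W q := by
  have := Finset.sum_filter_add_sum_filter_not univ (fun q : Q => (sup q : Finset α) ⊆ y) W
  rw [h, add_zero] at this
  exact this.symm

open Classical in
theorem valid_wide (F : MDag m (Atom σ (α ⊕ B)) Q) (hF : F.Invariant) {k : ℕ}
    (hsup : ∀ q : Q, (sup q : Finset α).card ≤ k ∧ IsSup (sup q : Finset α) q)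
    {Γ : Finset (Q × Bool)} {q : Q} {b b' : Bool} (hq : F.var q = none)
    (h : F.conn q (b' = true ∧ ∃ q', F.child q q') (b' = false ∧ ∃ q', F.child q q')
        (if b' = true then (Nat.card {q' // F.child q q'} : ZMod m) else 0) ↔ b = true)
    {y : Finset α} {S : Atom σ (α ⊕ B) → Prop}
    (hm : ∀ j, 1 ≤ j → j ≤ k → m ∣ (Fintype.card α - y.card).choose j)
    (hy : 2 * k + 2 ≤ y.card)
    (hyL : ∀ l ∈ insert (q, b) Γ, (sup l.1 : Finset α) ⊆ y)
    (ih : ∀ q', F.child q q' → (∀ l ∈ insert (q', b') Γ, (sup l.1 : Finset α) ⊆ y) →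
      SatLine (V F y S) (insert (q', b') Γ)) :
    SatLine (V F y S) (insert (q, b) Γ) := by
  classical
  have hyK : y.card ≤ Fintype.card α := card_le_univ y
  by_contra hcon
  have hΓ : ∀ l ∈ Γ, ¬ (V F y S l.1 ↔ l.2 = true) := fun l hl hv =>
    hcon ⟨l, mem_insert_of_mem hl, hv⟩
  have hqb : ¬ (V F y S q ↔ b = true) := fun hv => hcon ⟨(q, b), mem_insert_self _ _, hv⟩
  have hqy : (sup q : Finset α) ⊆ y := hyL (q, b) (mem_insert_self _ _)
  have hch : ∀ q', F.child q q' → (sup q' : Finset α) ⊆ y → (V F y S q' ↔ b' = true) := by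
    intro q' hc hs
    obtain ⟨l, hl, hv⟩ := ih q' hc (by
      intro l hl
      rcases mem_insert.1 hl with rfl | hl
      · exact hs
      · exact hyL l (mem_insert_of_mem hl))
    rcases mem_insert.1 hl with rfl | hl
    · exact hv
    · exact absurd hv (hΓ l hl)
  have hex : (∃ q', F.child q q' ∧ (sup q' : Finset α) ⊆ y) ↔ ∃ q', F.child q q' := by
    constructor
    · rintro ⟨q', h1, _⟩; exact ⟨q', h1⟩
    · rintro ⟨q', h1⟩
      obtain ⟨g, g1, g2, g3⟩ := exists_inside hsup y (sup q) hqy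
        (by have := (hsup q).1; omega) q'
      refine ⟨g • q', ?_, g3⟩
      have := hF.child g q q'
      rw [(hsup q).2 g g1 g2] at this
      exact this.2 h1
  apply hqb
  rw [V_conn F y S hq, ← h]
  have e1 : (∃ q', F.child q q' ∧ (sup q' : Finset α) ⊆ y ∧ V F y S q') ↔
      (b' = true ∧ ∃ q', F.child q q') := by
    rw [← hex]
    constructor
    · rintro ⟨q', h1, h2, h3⟩
      exact ⟨(hch q' h1 h2).1 h3, q', h1, h2⟩
    · rintro ⟨h0, q', h1, h2⟩
      exact ⟨q', h1, h2, (hch q' h1 h2).2 h0⟩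
  have e2 : (∃ q', F.child q q' ∧ (sup q' : Finset α) ⊆ y ∧ ¬ V F y S q') ↔
      (b' = false ∧ ∃ q', F.child q q') := by
    rw [← hex]
    constructor
    · rintro ⟨q', h1, h2, h3⟩
      refine ⟨?_, q', h1, h2⟩
      rw [hch q' h1 h2] at h3
      simpa using h3
    · rintro ⟨h0, q', h1, h2⟩
      refine ⟨q', h1, h2, ?_⟩
      rw [hch q' h1 h2, h0]
      simp
  have e3 : (Nat.card {q' // F.child q q' ∧ (sup q' : Finset α) ⊆ y ∧ V F y S q'} : ZMod m) =
      (if b' = true then (Nat.card {q' // F.child q q'} : ZMod m) else 0) := by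
    by_cases hb : b' = true
    · rw [if_pos hb, card_eq_sum, card_eq_sum]
      have hout : ∑ q' with ¬ (sup q' : Finset α) ⊆ y,
          (if F.child q q' then (1 : ZMod m) else 0) = 0 := by
        apply vanish_inv (fun q => (hsup q).1) y (fun j h1 h2 => by rw [card_compl]; exact hm j h1 h2)
          _ (sup q) hqy (by have := (hsup q).1; omega)
        intro g g1 g2 q'
        have := hF.child g q q'
        rw [(hsup q).2 g g1 g2] at this
        simp only [this]
      rw [card_split y _ hout, sum_filter]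
      apply sum_congr rfl
      intro q' _
      by_cases h1 : (sup q' : Finset α) ⊆ y
      · by_cases h2 : F.child q q'
        · simp only [h1, h2, true_and, if_true, (hch q' h2 h1).2 hb]
        · simp only [h1, h2, false_and, if_true]
      · simp only [h1, false_and, and_false, if_false]
    · rw [if_neg hb]
      have : IsEmpty {q' // F.child q q' ∧ (sup q' : Finset α) ⊆ y ∧ V F y S q'} := by
        constructor
        rintro ⟨q', h1, h2, h3⟩
        exact hb ((hch q' h1 h2).1 h3)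
      rw [Nat.card_of_isEmpty, Nat.cast_zero]
  rw [e1, e2, e3]

theorem isMod_V (F : MDag m (Atom σ (α ⊕ B)) Q) {q : Q} {r : ZMod m} (hq : F.IsMod q r)
    (y : Finset α) (S : Atom σ (α ⊕ B) → Prop) :
    V F y S q ↔
      (Nat.card {q' // F.child q q' ∧ (sup q' : Finset α) ⊆ y ∧ V F y S q'} : ZMod m) = r := by
  rw [V_conn F y S hq.1, hq.2]

open Classical in
theorem valid_linear (F : MDag m (Atom σ (α ⊕ B)) Q) (hF : F.Invariant) (Φ : Sentence σ) {k w : ℕ}
    (hsup : ∀ q : Q, (sup q : Finset α).card ≤ k ∧ IsSup (sup q : Finset α) q)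
    {Γ : Finset (Q × Bool)} {q : Q} {r : ZMod m} {a ρ : Q → ZMod m}
    (hw : (insert (q, true) Γ).card ≤ w)
    (ha : ∃ s : Finset α, s.card ≤ k ∧ ∀ g : Perm α, Perm.sign g = 1 → (∀ x ∈ s, g x = x) →
      ∀ x, a (g • x) = a x)
    (hq : F.IsMod q r) (hmod : ∀ q', a q' ≠ 0 → F.IsMod q' (ρ q'))
    (hchild : ∀ q'', (if F.child q q'' then (1 : ZMod m) else 0)
        = ∑ q', a q' * (if F.child q' q'' then (1 : ZMod m) else 0))
    (hr : r = ∑ q', a q' * ρ q')
    {y : Finset α} {S : Atom σ (α ⊕ B) → Prop} (hS : RelModel Φ y S)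
    (hm : ∀ j, 1 ≤ j → j ≤ k → m ∣ (Fintype.card α - y.card).choose j)
    (hy : w * k + 3 * k + 2 ≤ y.card)
    (hyL : ∀ l ∈ insert (q, true) Γ, (sup l.1 : Finset α) ⊆ y)
    (ih : ∀ q', a q' ≠ 0 → ∀ (y' : Finset α) (S' : Atom σ (α ⊕ B) → Prop), y'.card = y.card →
      RelModel Φ y' S' → (∀ l ∈ insert (q', true) Γ, (sup l.1 : Finset α) ⊆ y') →
      SatLine (V F y' S') (insert (q', true) Γ)) :
    SatLine (V F y S) (insert (q, true) Γ) := by
  obtain ⟨s, hs, hinv⟩ := ha
  have hyK : y.card ≤ Fintype.card α := card_le_univ y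
  have hcard : (((insert (q, true) Γ).biUnion fun l => (sup l.1 : Finset α)) ∪ s).card ≤
      w * k + k := by
    have h1 : ((insert (q, true) Γ).biUnion fun l => (sup l.1 : Finset α)).card ≤
        (insert (q, true) Γ).card * k := card_biUnion_le' _ _ _ fun l _ => (hsup l.1).1
    have h2 : (insert (q, true) Γ).card * k ≤ w * k := Nat.mul_le_mul_right _ hw
    have h3 := card_union_le ((insert (q, true) Γ).biUnion fun l => (sup l.1 : Finset α)) s
    omega
  obtain ⟨y', S', e1, e2, e3, e4⟩ := exists_world F hF Φ (fun q => (hsup q).2) y S hS _ hyL s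
    (by omega) (by omega)
  apply e4
  by_contra hcon
  have hΓ : ∀ l ∈ Γ, ¬ (V F y' S' l.1 ↔ l.2 = true) := fun l hl hv =>
    hcon ⟨l, mem_insert_of_mem hl, hv⟩
  have hqb : ¬ V F y' S' q := fun hv => hcon ⟨(q, true), mem_insert_self _ _, by simpa using hv⟩
  have hin : ∀ l ∈ insert (q, true) Γ, (sup l.1 : Finset α) ⊆ y' := fun l hl x hx =>
    e3 (mem_union_left _ (mem_biUnion.2 ⟨l, hl, hx⟩))
  have hsy : s ⊆ y' := fun x hx => e3 (mem_union_right _ hx)
  have hm' : ∀ j, 1 ≤ j → j ≤ k → m ∣ ((y'ᶜ : Finset α).card).choose j := by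
    intro j h1 h2
    rw [card_compl, e1]
    exact hm j h1 h2
  have hcompl : ∀ q' : Q, (sup q' : Finset α) ⊆ y' → (s ∪ (sup q' : Finset α)).card + k + 2 ≤
      Fintype.card α := by
    intro q' _
    have := card_union_le s (sup q' : Finset α)
    have := (hsup q').1
    omega
  -- the number of true children
  let N : Q → ZMod m := fun q' =>
    ∑ q'', if F.child q' q'' ∧ (sup q'' : Finset α) ⊆ y' ∧ V F y' S' q'' then (1 : ZMod m) else 0
  have hN : ∀ q', (Nat.card {q'' // F.child q' q'' ∧ (sup q'' : Finset α) ⊆ y' ∧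
      V F y' S' q''} : ZMod m) = N q' := fun q' => card_eq_sum _
  have hNin : ∀ q', a q' ≠ 0 → (sup q' : Finset α) ⊆ y' → N q' = ρ q' := by
    intro q' h1 h2
    obtain ⟨l, hl, hv⟩ := ih q' h1 y' S' e1 e2 (by
      intro l hl
      rcases mem_insert.1 hl with rfl | hl
      · exact h2
      · exact hin l (mem_insert_of_mem hl))
    rcases mem_insert.1 hl with rfl | hl
    · have h3 : V F y' S' q' := by simpa using hv
      rw [isMod_V F (hmod q' h1), hN] at h3
      exact h3
    · exact absurd hv (hΓ l hl)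
  have hρinv : ∀ g : Perm α, Perm.sign g = 1 → (∀ x ∈ s, g x = x) → ∀ q',
      a (g • q') * ρ (g • q') = a q' * ρ q' := by
    intro g g1 g2 q'
    rw [hinv g g1 g2 q']
    by_cases h0 : a q' = 0
    · rw [h0, zero_mul, zero_mul]
    · have h1 := hmod q' h0
      have h2 := hmod (g • q') (by rw [hinv g g1 g2 q']; exact h0)
      have h3 : ρ (g • q') = ρ q' := by
        have := (h1.2 True True (ρ (g • q')))
        rw [← hF.conn g q', h2.2] at this
        exact this.1 rfl
      rw [h3]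
  have hout1 : ∑ q' with ¬ (sup q' : Finset α) ⊆ y', a q' * ρ q' = 0 :=
    vanish_inv (fun q => (hsup q).1) y' hm' _ s hsy (by omega) hρinv
  have hNq : N q = ∑ q', a q' * N q' := by
    have h1 : ∀ q', N q' = ∑ q'' with ((sup q'' : Finset α) ⊆ y' ∧ V F y' S' q''),
        if F.child q' q'' then (1 : ZMod m) else 0 := by
      intro q'
      rw [sum_filter]
      apply sum_congr rfl
      intro q'' _
      by_cases h2 : (sup q'' : Finset α) ⊆ y' ∧ V F y' S' q''
      · rw [if_pos h2]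
        simp only [h2, and_true]
      · rw [if_neg h2, if_neg]
        exact fun h3 => h2 h3.2
    rw [h1 q]
    simp only [hchild]
    rw [sum_comm]
    apply sum_congr rfl
    intro q' _
    rw [h1 q', mul_sum]
  have hout2 : ∑ q' with ¬ (sup q' : Finset α) ⊆ y', a q' * N q' = 0 := by
    have h1 : ∀ q', a q' * N q' = ∑ q'' with ((sup q'' : Finset α) ⊆ y' ∧ V F y' S' q''),
        a q' * (if F.child q' q'' then (1 : ZMod m) else 0) := by
      intro q'
      rw [← mul_sum, sum_filter]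
      congr 1
      apply sum_congr rfl
      intro q'' _
      by_cases h2 : (sup q'' : Finset α) ⊆ y' ∧ V F y' S' q''
      · rw [if_pos h2]
        simp only [h2, and_true]
      · rw [if_neg h2, if_neg]
        exact fun h3 => h2 h3.2
    simp only [h1]
    rw [sum_comm]
    apply sum_eq_zero
    intro q'' hq''
    rw [mem_filter] at hq''
    apply vanish_inv (fun q => (hsup q).1) y' hm' _ (s ∪ sup q'') (union_subset hsy hq''.2.1)
      (hcompl q'' hq''.2.1)
    intro g g1 g2 q'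
    rw [hinv g g1 (fun x hx => g2 x (mem_union_left _ hx))]
    have h3 := hF.child g q' q''
    rw [(hsup q'').2 g g1 (fun x hx => g2 x (mem_union_right _ hx))] at h3
    simp only [h3]
  apply hqb
  rw [isMod_V F hq, hN, hNq, card_split y' _ hout2, hr, card_split y' _ hout1]
  apply sum_congr rfl
  intro q' hq'
  rw [mem_filter] at hq'
  by_cases h0 : a q' = 0
  · rw [h0, zero_mul, zero_mul]
  · rw [hNin q' h0 hq'.2]

open Classical in
theorem valid_replace (F : MDag m (Atom σ (α ⊕ B)) Q) (hF : F.Invariant) (Φ : Sentence σ)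
    {k w : ℕ}
    (hsup : ∀ q : Q, (sup q : Finset α).card ≤ k ∧ IsSup (sup q : Finset α) q)
    {Γ : Finset (Q × Bool)} {q₁ q₂ : Q} {ρ : Q × Q → Prop}
    (hw : (insert (q₁, false) (insert (q₂, true) Γ)).card ≤ w)
    (hρ : ∃ s : Finset α, s.card ≤ k ∧ ∀ g : Perm α, Perm.sign g = 1 → (∀ x ∈ s, g x = x) →
      ∀ x, ρ (g • x) = ρ x)
    (h₁ : F.var q₁ = none) (h₂ : F.var q₂ = none) (hconn : F.conn q₁ = F.conn q₂)
    (hρc : ∀ a b, ρ (a, b) → F.child q₁ a ∧ F.child q₂ b)
    (hρ₁ : ∀ a, F.child q₁ a → ∃! b, ρ (a, b)) (hρ₂ : ∀ b, F.child q₂ b → ∃! a, ρ (a, b))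
    {y : Finset α} {S : Atom σ (α ⊕ B) → Prop} (hS : RelModel Φ y S)
    (hy : w * k + k + 2 ≤ y.card) (hK : 4 * k + 3 ≤ Fintype.card α)
    (hyL : ∀ l ∈ insert (q₁, false) (insert (q₂, true) Γ), (sup l.1 : Finset α) ⊆ y)
    (ih₁ : ∀ a b, ρ (a, b) → ∀ (y' : Finset α) (S' : Atom σ (α ⊕ B) → Prop), y'.card = y.card →
      RelModel Φ y' S' →
      (∀ l ∈ insert (a, false) (insert (b, true) Γ), (sup l.1 : Finset α) ⊆ y') →
      SatLine (V F y' S') (insert (a, false) (insert (b, true) Γ)))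
    (ih₂ : ∀ a b, ρ (a, b) → ∀ (y' : Finset α) (S' : Atom σ (α ⊕ B) → Prop), y'.card = y.card →
      RelModel Φ y' S' →
      (∀ l ∈ insert (a, true) (insert (b, false) Γ), (sup l.1 : Finset α) ⊆ y') →
      SatLine (V F y' S') (insert (a, true) (insert (b, false) Γ))) :
    SatLine (V F y S) (insert (q₁, false) (insert (q₂, true) Γ)) := by
  classical
  obtain ⟨s, hs, hinv⟩ := hρ
  have hyK : y.card ≤ Fintype.card α := card_le_univ y
  set L := insert (q₁, false) (insert (q₂, true) Γ) with hLdef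
  have hcard : ((L.biUnion fun l => (sup l.1 : Finset α)) ∪ s).card ≤ w * k + k := by
    have h1 : (L.biUnion fun l => (sup l.1 : Finset α)).card ≤ L.card * k :=
      card_biUnion_le' _ _ _ fun l _ => (hsup l.1).1
    have h2 : L.card * k ≤ w * k := Nat.mul_le_mul_right _ hw
    have h3 := card_union_le (L.biUnion fun l => (sup l.1 : Finset α)) s
    omega
  obtain ⟨y', S', e1, e2, e3, e4⟩ := exists_world F hF Φ (fun q => (hsup q).2) y S hS _ hyL s
    (by omega) (by omega)
  apply e4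
  by_contra hcon
  have hΓ : ∀ l ∈ Γ, ¬ (V F y' S' l.1 ↔ l.2 = true) := fun l hl hv =>
    hcon ⟨l, mem_insert_of_mem (mem_insert_of_mem hl), hv⟩
  have hq1 : V F y' S' q₁ := by
    by_contra h
    exact hcon ⟨(q₁, false), mem_insert_self _ _, by simpa using h⟩
  have hq2 : ¬ V F y' S' q₂ := fun h =>
    hcon ⟨(q₂, true), mem_insert_of_mem (mem_insert_self _ _), by simpa using h⟩
  have hin : ∀ l ∈ L, (sup l.1 : Finset α) ⊆ y' := fun l hl x hx =>
    e3 (mem_union_left _ (mem_biUnion.2 ⟨l, hl, hx⟩))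
  have hsy : s ⊆ y' := fun x hx => e3 (mem_union_right _ hx)
  have hsub1 : ∀ a b, ρ (a, b) → (sup a : Finset α) ⊆ y' → (sup b : Finset α) ⊆ y' := by
    intro a b hab ha
    have h3 : IsSup (s ∪ sup a) b := by
      intro g g1 g2
      have h4 := hinv g g1 (fun x hx => g2 x (mem_union_left _ hx)) (a, b)
      have h5 : g • (a, b) = (a, g • b) := by
        rw [Prod.smul_mk, (hsup a).2 g g1 (fun x hx => g2 x (mem_union_right _ hx))]
      rw [h5] at h4
      exact (hρ₁ a (hρc a b hab).1).unique (by rw [h4]; exact hab) hab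
    have h6 := sup_subset h3 (by
      have := card_union_le s (sup a : Finset α)
      have := (hsup a).1
      omega)
    exact h6.trans (union_subset hsy ha)
  have hsub2 : ∀ a b, ρ (a, b) → (sup b : Finset α) ⊆ y' → (sup a : Finset α) ⊆ y' := by
    intro a b hab hb
    have h3 : IsSup (s ∪ sup b) a := by
      intro g g1 g2
      have h4 := hinv g g1 (fun x hx => g2 x (mem_union_left _ hx)) (a, b)
      have h5 : g • (a, b) = (g • a, b) := by
        rw [Prod.smul_mk, (hsup b).2 g g1 (fun x hx => g2 x (mem_union_right _ hx))]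
      rw [h5] at h4
      exact (hρ₂ b (hρc a b hab).2).unique (by rw [h4]; exact hab) hab
    have h6 := sup_subset h3 (by
      have := card_union_le s (sup b : Finset α)
      have := (hsup b).1
      omega)
    exact h6.trans (union_subset hsy hb)
  have hval : ∀ a b, ρ (a, b) → (sup a : Finset α) ⊆ y' → (V F y' S' a ↔ V F y' S' b) := by
    intro a b hab ha
    have hb := hsub1 a b hab ha
    have hins : ∀ c d : Bool, ∀ l ∈ insert (a, c) (insert (b, d) Γ), (sup l.1 : Finset α) ⊆ y' := by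
      intro c d l hl
      rcases mem_insert.1 hl with rfl | hl
      · exact ha
      rcases mem_insert.1 hl with rfl | hl
      · exact hb
      · exact hin l (mem_insert_of_mem (mem_insert_of_mem hl))
    have k1 := ih₁ a b hab y' S' e1 e2 (hins _ _)
    have k2 := ih₂ a b hab y' S' e1 e2 (hins _ _)
    constructor
    · intro hva
      obtain ⟨l, hl, hv⟩ := k1
      rcases mem_insert.1 hl with rfl | hl
      · exact absurd hva (by simpa using hv)
      rcases mem_insert.1 hl with rfl | hl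
      · simpa using hv
      · exact absurd hv (hΓ l hl)
    · intro hvb
      obtain ⟨l, hl, hv⟩ := k2
      rcases mem_insert.1 hl with rfl | hl
      · simpa using hv
      rcases mem_insert.1 hl with rfl | hl
      · exact absurd hvb (by simpa using hv)
      · exact absurd hv (hΓ l hl)
  have key : ∀ ε : Prop → Prop, (∃ q', F.child q₁ q' ∧ (sup q' : Finset α) ⊆ y' ∧
      ε (V F y' S' q')) ↔ (∃ q', F.child q₂ q' ∧ (sup q' : Finset α) ⊆ y' ∧ ε (V F y' S' q')) := by
    intro ε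
    constructor
    · rintro ⟨a, h3, h4, h5⟩
      obtain ⟨b, hb, _⟩ := hρ₁ a h3
      refine ⟨b, (hρc a b hb).2, hsub1 a b hb h4, ?_⟩
      rw [← hval a b hb h4]
      exact h5
    · rintro ⟨b, h3, h4, h5⟩
      obtain ⟨a, ha, _⟩ := hρ₂ b h3
      have h6 := hsub2 a b ha h4
      refine ⟨a, (hρc a b ha).1, h6, ?_⟩
      rw [hval a b ha h6]
      exact h5
  have hcount : Nat.card {q' // F.child q₁ q' ∧ (sup q' : Finset α) ⊆ y' ∧ V F y' S' q'} =
      Nat.card {q' // F.child q₂ q' ∧ (sup q' : Finset α) ⊆ y' ∧ V F y' S' q'} := by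
    choose β hβ hβu using fun (x : {q' // F.child q₁ q'}) => hρ₁ x.1 x.2
    apply Nat.card_eq_of_bijective (fun x : {q' // F.child q₁ q' ∧ (sup q' : Finset α) ⊆ y' ∧
        V F y' S' q'} => (⟨β ⟨x.1, x.2.1⟩, (hρc _ _ (hβ ⟨x.1, x.2.1⟩)).2,
          hsub1 _ _ (hβ ⟨x.1, x.2.1⟩) x.2.2.1,
          (hval _ _ (hβ ⟨x.1, x.2.1⟩) x.2.2.1).1 x.2.2.2⟩ :
          {q' // F.child q₂ q' ∧ (sup q' : Finset α) ⊆ y' ∧ V F y' S' q'}))
    constructor
    · rintro ⟨x, hx⟩ ⟨x', hx'⟩ h
      have h3 : β ⟨x, hx.1⟩ = β ⟨x', hx'.1⟩ := congrArg Subtype.val h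
      have h4 := hβ ⟨x, hx.1⟩
      have h5 := hβ ⟨x', hx'.1⟩
      simp only at h4 h5
      rw [h3] at h4
      exact Subtype.ext ((hρ₂ _ (hρc _ _ h4).2).unique h4 h5)
    · rintro ⟨b, hb⟩
      obtain ⟨a, ha, _⟩ := hρ₂ b hb.1
      have h6 := hsub2 a b ha hb.2.1
      refine ⟨⟨a, (hρc a b ha).1, h6, (hval a b ha h6).2 hb.2.2⟩, ?_⟩
      apply Subtype.ext
      show β ⟨a, _⟩ = b
      exact (hβu ⟨a, (hρc a b ha).1⟩ b ha).symm
  apply hq2
  rw [V_conn F y' S' h₁] at hq1
  rw [V_conn F y' S' h₂]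
  have k1 := key id
  have k2 := key Not
  simp only [id] at k1
  rw [k1, k2, hcount, hconn] at hq1
  exact hq1

/-- **All derived lines are true in all smaller models of the right size.** -/
theorem valid_of_derives (F : MDag m (Atom σ (α ⊕ B)) Q) (hF : F.Invariant) (Φ : Sentence σ)
    {k w c n n₀ : ℕ} (hk : 1 ≤ k) (hn : n ^ 2 ≤ Fintype.card α ^ k)
    (hK : 16 * (k + 1) * (k + 1) * (Nat.log 2 (Fintype.card α) + 1) ≤ Fintype.card α)
    (hsup : ∀ q : Q, (sup q : Finset α).card ≤ k ∧ IsSup (sup q : Finset α) q)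
    (hm : ∀ j, 1 ≤ j → j ≤ k → m ∣ (Fintype.card α - n₀).choose j)
    (hn₀ : (c + 1) * (w + 1) * (k + Φ.p) + 3 * k + 2 ≤ n₀)
    {L : Finset (Q × Bool)} (hL : F.Derives Φ w c n L) :
    ∀ (y : Finset α) (S : Atom σ (α ⊕ B) → Prop), y.card = n₀ → RelModel Φ y S →
      (∀ l ∈ L, (sup l.1 : Finset α) ⊆ y) → SatLine (V F y S) L := by
  have hwk : w * k ≤ (c + 1) * (w + 1) * (k + Φ.p) := by
    calc w * k ≤ (w + 1) * (k + Φ.p) := by nlinarith
      _ = 1 * ((w + 1) * (k + Φ.p)) := by ring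
      _ ≤ (c + 1) * ((w + 1) * (k + Φ.p)) := Nat.mul_le_mul_right _ (by omega)
      _ = _ := by ring
  have hK4 : 4 * k + 3 ≤ Fintype.card α := by
    have h1 : 16 * (k + 1) * (k + 1) * 1 ≤
        16 * (k + 1) * (k + 1) * (Nat.log 2 (Fintype.card α) + 1) :=
      Nat.mul_le_mul_left _ (by omega)
    nlinarith
  induction hL with
  | infer L D X P hw hc hP h ih =>
    intro y S hy hS hyL
    exact valid_infer F hF Φ hsup (by omega) hw hc (fun L' hL' => card_of_derives F Φ (hP L' hL')) h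
      hS (by rw [hy]; exact hm) (by omega) hyL
      (fun L' hL' y' S' h1 h2 h3 => ih L' hL' y' S' (by omega) h2 h3)
  | wide Γ q b b' hw hq hP h ih =>
    intro y S hy hS hyL
    exact valid_wide F hF hsup hq h (by rw [hy]; exact hm) (by omega) hyL
      (fun q' hq' h1 => ih q' hq' y S hy hS h1)
  | linear Γ q r a ρ hw ha hq hmod hP hchild hr ih =>
    intro y S hy hS hyL
    exact valid_linear F hF Φ hsup hw (few_support hk hn hK a ha) hq hmod hchild hr hS
      (by rw [hy]; exact hm) (by omega) hyL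
      (fun q' hq' y' S' h1 h2 h3 => ih q' hq' y' S' (by omega) h2 h3)
  | replace Γ q₁ q₂ ρ hw hρ h₁ h₂ hconn hρc hρ₁ hρ₂ hP₁ hP₂ ih₁ ih₂ =>
    intro y S hy hS hyL
    exact valid_replace F hF Φ hsup hw (few_support hk hn hK ρ hρ) h₁ h₂ hconn hρc hρ₁ hρ₂ hS
      (by omega) hK4 hyL
      (fun a b hab y' S' h1 h2 h3 => ih₁ a b hab y' S' (by omega) h2 h3)
      (fun a b hab y' S' h1 h2 h3 => ih₂ a b hab y' S' (by omega) h2 h3)

end H688R2.Cnt
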