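import Pool.Agent.H688R2.Cnt.Defs
import Pool.Agent.H688R2.Cnt.Vanish

/-!
# Truth values in a smaller model
-/

namespace H688R2.Cnt

open Equiv Finset H688R2.Sym H688R2.Gap H534R2.SymSw

section world

variable {σ : Sig} {α B Q : Type} {m : ℕ} [DecidableEq α] [Fintype α] [MulAction (Perm α) Q]

/-- the truth value of `q` in the structure `S` on the smaller domain `y ⊕ B` -/
noncomputable def V (F : MDag m (Atom σ (α ⊕ B)) Q) (y : Finset α)
    (S : Atom σ (α ⊕ B) → Prop) (q : Q) : Prop :=
  match F.var q with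
  | some a => S a
  | none => F.conn q (∃ q' : {q' // F.child q q'}, (sup q'.1 : Finset α) ⊆ y ∧ V F y S q'.1)
      (∃ q' : {q' // F.child q q'}, (sup q'.1 : Finset α) ⊆ y ∧ ¬ V F y S q'.1)
      (Nat.card {q' : {q' // F.child q q'} // (sup q'.1 : Finset α) ⊆ y ∧ V F y S q'.1} : ZMod m)
termination_by F.level q
decreasing_by all_goals exact F.child_lt _ _ q'.2

theorem V_var (F : MDag m (Atom σ (α ⊕ B)) Q) (y : Finset α) (S : Atom σ (α ⊕ B) → Prop) {q : Q}
    {a} (h : F.var q = some a) : V F y S q ↔ S a := by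
  rw [V, h]

theorem V_conn (F : MDag m (Atom σ (α ⊕ B)) Q) (y : Finset α) (S : Atom σ (α ⊕ B) → Prop) {q : Q}
    (h : F.var q = none) : V F y S q ↔
      F.conn q (∃ q', F.child q q' ∧ (sup q' : Finset α) ⊆ y ∧ V F y S q')
        (∃ q', F.child q q' ∧ (sup q' : Finset α) ⊆ y ∧ ¬ V F y S q')
        (Nat.card {q' // F.child q q' ∧ (sup q' : Finset α) ⊆ y ∧ V F y S q'} : ZMod m) := by
  rw [V, h]
  simp only [Subtype.exists, exists_prop]
  have : Nat.card {q' : {q' // F.child q q'} // (sup q'.1 : Finset α) ⊆ y ∧ V F y S q'.1} =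
      Nat.card {q' // F.child q q' ∧ (sup q' : Finset α) ⊆ y ∧ V F y S q'} := by
    apply Nat.card_congr
    exact Equiv.subtypeSubtypeEquivSubtypeInter (fun q' => F.child q q')
      (fun q' => (sup q' : Finset α) ⊆ y ∧ V F y S q')
  rw [this]

/-- the structure `S` with its elements renamed by `g` -/
def mv (g : Perm α) (S : Atom σ (α ⊕ B) → Prop) : Atom σ (α ⊕ B) → Prop :=
  fun a => S (a.map (Sum.map (g⁻¹ : Perm α) id))

omit [DecidableEq α] [Fintype α] in
theorem map_map_inv (g : Perm α) (a : Atom σ (α ⊕ B)) :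
    (a.map (Sum.map g id)).map (Sum.map (g⁻¹ : Perm α) id) = a := by
  unfold Atom.map
  rcases a with ⟨r, a⟩
  congr 1
  funext i
  simp only
  rcases a i with x | b
  · simp
  · simp

omit [DecidableEq α] [Fintype α] in
theorem map_inv_map (g : Perm α) (a : Atom σ (α ⊕ B)) :
    (a.map (Sum.map (g⁻¹ : Perm α) id)).map (Sum.map g id) = a := by
  have := map_map_inv g⁻¹ a
  rwa [inv_inv] at this

omit [DecidableEq α] [Fintype α] in
theorem mv_map (g : Perm α) (S : Atom σ (α ⊕ B) → Prop) (a : Atom σ (α ⊕ B)) :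
    mv g S (a.map (Sum.map g id)) ↔ S a := by
  unfold mv
  rw [map_map_inv]

theorem sup_subset_map (g : Perm α) (q : Q) (y : Finset α) :
    (sup (g • q) : Finset α) ⊆ y.map g.toEmbedding ↔ (sup q : Finset α) ⊆ y := by
  rw [sup_smul, map_subset_map]

omit [DecidableEq α] [Fintype α] in
theorem ex_smul (g : Perm α) {p p' : Q → Prop} (h : ∀ q, p' (g • q) ↔ p q) :
    (∃ q, p' q) ↔ ∃ q, p q := by
  constructor
  · rintro ⟨q, hq⟩
    refine ⟨g⁻¹ • q, ?_⟩
    rw [← h, smul_inv_smul]
    exact hq
  · rintro ⟨q, hq⟩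
    exact ⟨g • q, (h q).2 hq⟩

omit [DecidableEq α] [Fintype α] in
theorem card_smul (g : Perm α) {p p' : Q → Prop} (h : ∀ q, p' (g • q) ↔ p q) :
    Nat.card {q // p' q} = Nat.card {q // p q} :=
  (Nat.card_congr (Equiv.subtypeEquiv (MulAction.toPerm g) (fun q => (h q).symm))).symm

theorem V_smul (F : MDag m (Atom σ (α ⊕ B)) Q) (hF : F.Invariant) (y : Finset α)
    (S : Atom σ (α ⊕ B) → Prop) (g : Perm α) :
    ∀ n q, F.level q = n → (V F (y.map g.toEmbedding) (mv g S) (g • q) ↔ V F y S q) := by
  intro n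
  induction n using Nat.strong_induction_on with
  | _ n ih =>
    intro q hq
    rcases hv : F.var q with _ | a
    · have hv' : F.var (g • q) = none := by rw [hF.var, hv]; rfl
      rw [V_conn F _ _ hv', V_conn F _ _ hv, hF.conn]
      have key : ∀ (ε : Prop → Prop) (q' : Q),
          (F.child (g • q) (g • q') ∧ (sup (g • q') : Finset α) ⊆ y.map g.toEmbedding ∧
            ε (V F (y.map g.toEmbedding) (mv g S) (g • q'))) ↔
            (F.child q q' ∧ (sup q' : Finset α) ⊆ y ∧ ε (V F y S q')) := by
        intro ε q'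
        rw [hF.child, sup_subset_map]
        refine and_congr_right fun hc => ?_
        rw [ih _ (by rw [← hq]; exact F.child_lt _ _ hc) _ rfl]
      have k1 := ex_smul g (p := fun q' => F.child q q' ∧ (sup q' : Finset α) ⊆ y ∧ V F y S q')
        (p' := fun q' => F.child (g • q) q' ∧ (sup q' : Finset α) ⊆ y.map g.toEmbedding ∧
          V F (y.map g.toEmbedding) (mv g S) q') (key id)
      have k2 := ex_smul g (p := fun q' => F.child q q' ∧ (sup q' : Finset α) ⊆ y ∧ ¬ V F y S q')
        (p' := fun q' => F.child (g • q) q' ∧ (sup q' : Finset α) ⊆ y.map g.toEmbedding ∧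
          ¬ V F (y.map g.toEmbedding) (mv g S) q') (key Not)
      have k3 := card_smul g (p := fun q' => F.child q q' ∧ (sup q' : Finset α) ⊆ y ∧ V F y S q')
        (p' := fun q' => F.child (g • q) q' ∧ (sup q' : Finset α) ⊆ y.map g.toEmbedding ∧
          V F (y.map g.toEmbedding) (mv g S) q') (key id)
      rw [k1, k2, k3]
    · have hv' : F.var (g • q) = some (a.map (Sum.map g id)) := by rw [hF.var, hv]; rfl
      rw [V_var F _ _ hv', V_var F _ _ hv, mv_map]

/-- `z` lies in the smaller domain `y ⊕ B` -/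
def InY (y : Finset α) (z : α ⊕ B) : Prop := ∀ a, z = .inl a → a ∈ y

/-- the structure `S`, restricted to `y ⊕ B`, is a model of the sentence -/
def RelModel (Φ : Sentence σ) (y : Finset α) (S : Atom σ (α ⊕ B) → Prop) : Prop :=
  ∀ x : Fin Φ.p → α ⊕ B, (∀ i, InY y (x i)) → ∃ z : Fin Φ.q → α ⊕ B, (∀ i, InY y (z i)) ∧
    Φ.θ (fun i j => Sum.elim x z i = Sum.elim x z j) (fun a => S (a.map (Sum.elim x z)))

omit [DecidableEq α] [Fintype α] in
theorem inY_map (g : Perm α) (y : Finset α) (z : α ⊕ B) :
    InY (y.map g.toEmbedding) (Sum.map g id z) ↔ InY y z := by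
  unfold InY
  rcases z with x | b
  · simp
  · simp

omit [DecidableEq α] [Fintype α] in
theorem relModel_mv (Φ : Sentence σ) (y : Finset α) (S : Atom σ (α ⊕ B) → Prop) (g : Perm α)
    (h : RelModel Φ y S) : RelModel Φ (y.map g.toEmbedding) (mv g S) := by
  have hinv : ∀ z : α ⊕ B, Sum.map g id (Sum.map (g⁻¹ : Perm α) id z) = z := by
    rintro (x | b) <;> simp
  intro x hx
  obtain ⟨z, hz, hθ⟩ := h (fun i => Sum.map (g⁻¹ : Perm α) id (x i)) (fun i => by
    rw [← inY_map g, hinv]
    exact hx i)
  refine ⟨fun i => Sum.map g id (z i), fun i => (inY_map g y _).2 (hz i), ?_⟩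
  have hel : ∀ i, Sum.elim x (fun i => Sum.map g id (z i)) i =
      Sum.map g id (Sum.elim (fun i => Sum.map (g⁻¹ : Perm α) id (x i)) z i) := by
    rintro (i | i)
    · exact (hinv (x i)).symm
    · rfl
  have e1 : (fun i j => Sum.elim x (fun i => Sum.map g id (z i)) i =
      Sum.elim x (fun i => Sum.map g id (z i)) j) = (fun i j =>
        Sum.elim (fun i => Sum.map (g⁻¹ : Perm α) id (x i)) z i =
        Sum.elim (fun i => Sum.map (g⁻¹ : Perm α) id (x i)) z j) := by
    funext i j
    rw [hel, hel]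
    apply propext
    constructor
    · intro h'
      have := congrArg (Sum.map (g⁻¹ : Perm α) id) h'
      have hinv' : ∀ z : α ⊕ B, Sum.map (g⁻¹ : Perm α) id (Sum.map g id z) = z := by
        rintro (x | b) <;> simp
      rwa [hinv', hinv'] at this
    · intro h'
      rw [h']
  have e2 : (fun a : Atom σ (Fin Φ.p ⊕ Fin Φ.q) =>
      mv g S (a.map (Sum.elim x (fun i => Sum.map g id (z i))))) =
      (fun a => S (a.map (Sum.elim (fun i => Sum.map (g⁻¹ : Perm α) id (x i)) z))) := by
    funext a
    apply propext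
    rw [← mv_map g S]
    have : a.map (Sum.elim x (fun i => Sum.map g id (z i))) =
        (a.map (Sum.elim (fun i => Sum.map (g⁻¹ : Perm α) id (x i)) z)).map (Sum.map g id) := by
      unfold Atom.map
      simp only
      congr 1
      funext i
      exact hel _
    rw [this]
  rw [e1, e2]
  exact hθ

/-- the atomic facts that occur as formulas: their elements are the support -/
theorem sup_subset_of_var [Fintype Q] (F : MDag m (Atom σ (α ⊕ B)) Q) (hF : F.Invariant)
    {k : ℕ} (hK : 2 * k + 3 ≤ Fintype.card α)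
    (hsup : ∀ q : Q, (sup q : Finset α).card ≤ k ∧ IsSup (sup q : Finset α) q)
    {q : Q} {a} (h : F.var q = some a) (y : Finset α) (hy : ∀ i, InY y (a.2 i)) :
    (sup q : Finset α) ⊆ y := by
  classical
  -- the elements of the atomic fact
  let E : Finset α := univ.filter fun x => ∃ i, a.2 i = .inl x
  have hE1 : E ⊆ (sup q : Finset α) := by
    intro x hx
    simp only [E, mem_filter, mem_univ, true_and] at hx
    obtain ⟨i, hi⟩ := hx
    by_contra hxs
    have h1 : 2 ≤ ((insert x (sup q : Finset α))ᶜ).card := by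
      rw [card_compl]
      have := card_insert_le x (sup q : Finset α)
      have := (hsup q).1
      omega
    obtain ⟨u, hu, z, hz, huz⟩ := Finset.one_lt_card.1 (show 1 < _ from h1)
    simp only [mem_compl, mem_insert, not_or] at hu hz
    have hfix : c3 x u z • q = q := by
      apply (hsup q).2
      · unfold c3
        rw [map_mul, Perm.sign_swap (Ne.symm hu.1), Perm.sign_swap huz]
        rfl
      · intro w hw
        apply c3_apply_of_ne
        · rintro rfl; exact hxs hw
        · rintro rfl; exact hu.2 hw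
        · rintro rfl; exact hz.2 hw
    have h2 := hF.var (c3 x u z) q
    rw [hfix, h] at h2
    simp only [Option.map_some, Option.some.injEq] at h2
    have h3 : a.2 i = Sum.map (c3 x u z) id (a.2 i) := by
      have : ∀ b : Atom σ (α ⊕ B), a = b → ∀ j : Fin (σ.ar b.1), HEq i j → a.2 i = b.2 j := by
        rintro b rfl j hj
        rw [eq_of_heq hj]
      exact this _ h2 i HEq.rfl
    rw [hi] at h3
    simp only [Sum.map_inl, Sum.inl.injEq] at h3
    rw [c3_apply1 (Ne.symm hu.1) (Ne.symm hz.1)] at h3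
    exact hu.1 h3.symm
  have hE2 : IsSup E q := by
    intro g _ hg
    apply F.var_inj (g • q) q a _ h
    rw [hF.var, h, Option.map_some]
    congr 1
    unfold Atom.map
    rcases a with ⟨r, a⟩
    congr 1
    funext i
    simp only
    rcases hi : a i with x | b
    · rw [Sum.map_inl, hg x (by
        simp only [E, mem_filter, mem_univ, true_and]
        exact ⟨i, hi⟩)]
    · rfl
  have hE3 : (sup q : Finset α) ⊆ E := sup_subset hE2 (by
    have := card_le_card hE1
    have := (hsup q).1
    omega)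
  refine hE3.trans ?_
  intro x hx
  simp only [E, mem_filter, mem_univ, true_and] at hx
  obtain ⟨i, hi⟩ := hx
  exact hy i x hi

end world

end H688R2.Cnt
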